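import Pool.Agent.Lib.MP_ddf912_lc.Neg.Sun

/-! The approximation method for gates of small fan-in that are monotone from positive to
negative tests. -/

set_option autoImplicit false

namespace Pool.Agent.Lib.MP_ddf912_lc.Neg

open Finset Classical

theorem compress {U : Type} [Fintype U] {q l r η : ℕ} (hl : 0 < l) (hr : 0 < r) (hq : l ≤ q)
    (hη : ∀ x, x * (q ^ l) ^ r ≤ (q ^ l - 1) ^ r * q ^ Fintype.card U → x ≤ η)
    (F0 : Finset (Finset U)) (h : ∀ X ∈ F0, X.card ≤ l) :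
    ∃ (M : Finset (Finset U)) (B : Finset (U → Fin q)), M.card ≤ (l * r) ^ l ∧
      B.card ≤ η * (Fintype.card U + 1) ^ l ∧ (∀ X ∈ F0, ∃ Y ∈ M, Y ⊆ X) ∧
      ∀ χ ∉ B, (∃ Y ∈ M, Set.InjOn χ Y) → ∃ X ∈ F0, Set.InjOn χ X := by
  obtain ⟨F, hF, hmax⟩ := exists_max_image (univ.filter fun F : Finset (Finset U) =>
    F0 ⊆ F ∧ (∀ X ∈ F, X.card ≤ l) ∧ (univ.filter fun χ : U → Fin q =>
      (∃ Y ∈ F, Set.InjOn χ Y) ∧ ∀ X ∈ F0, ¬ Set.InjOn χ X).card ≤ η * F.card) card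
    ⟨F0, mem_filter.mpr ⟨mem_univ _, Subset.refl _, h, by
      rw [filter_eq_empty_iff.mpr]
      · simp
      · rintro χ - ⟨⟨Y, h1, h2⟩, h3⟩
        exact h3 Y h1 h2⟩⟩
  obtain ⟨h1, h2, h3⟩ := (mem_filter.mp hF).2
  have hcl : ∀ Y : Finset U, Y.card ≤ l → (univ.filter fun χ : U → Fin q =>
      Set.InjOn χ Y ∧ ∀ X ∈ F, ¬ Set.InjOn χ X).card ≤ η → Y ∈ F := by
    intro Y hY hc
    by_contra hn
    have := hmax (insert Y F) (mem_filter.mpr ⟨mem_univ _, h1.trans (subset_insert _ _),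
      fun X hX => ?_, ?_⟩)
    · rw [card_insert_of_notMem hn] at this; omega
    · rcases mem_insert.mp hX with e | e
      · rw [e]; exact hY
      · exact h2 X e
    · rw [card_insert_of_notMem hn, mul_add, mul_one]
      refine le_trans (card_le_card fun χ hχ => ?_) ((card_union_le _ _).trans (add_le_add h3 hc))
      obtain ⟨⟨Z, e1, e2⟩, e3⟩ := (mem_filter.mp hχ).2
      by_cases e4 : ∃ Z ∈ F, Set.InjOn χ Z
      · exact mem_union_left _ (mem_filter.mpr ⟨mem_univ _, e4, e3⟩)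
      · refine mem_union_right _ (mem_filter.mpr ⟨mem_univ _, ?_, fun X hX e => e4 ⟨X, hX, e⟩⟩)
        rcases mem_insert.mp e1 with e | e
        · rw [← e]; exact e2
        · exact absurd ⟨Z, e, e2⟩ e4
  refine ⟨F.filter fun X => ∀ Y ∈ F, Y ⊆ X → X ⊆ Y, _, ?_, h3.trans (Nat.mul_le_mul_left _ ?_),
    fun X hX => ?_, fun χ hχ ⟨Y, hY, e⟩ => ?_⟩
  · by_contra hc
    obtain ⟨Y, S, e1, e2, e3, e4⟩ := sunflower hl hr
      (F.filter fun X => ∀ Y ∈ F, Y ⊆ X → X ⊆ Y) (fun X hX => h2 X (mem_filter.mp hX).1)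
      (fun X hX X' hX' e => (mem_filter.mp hX').2 X (mem_filter.mp hX).1 e) (not_le.mp hc)
    obtain ⟨X, hX⟩ := card_pos.mp (e2 ▸ hr : 0 < S.card)
    have e5 := petal hq (by omega) Y S (fun X hX => ⟨(e3 X hX).1, h2 X (mem_filter.mp (e1 hX)).1⟩)
      e4
    rw [e2] at e5
    refine (e3 X hX).2 ((mem_filter.mp (e1 hX)).2 Y (hcl Y ((card_le_card (e3 X hX).1).trans
      (h2 X (mem_filter.mp (e1 hX)).1)) (le_trans (card_le_card fun χ hχ => ?_) (hη _ e5)))
      (e3 X hX).1)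
    obtain ⟨e6, e7⟩ := (mem_filter.mp hχ).2
    exact mem_filter.mpr ⟨mem_univ _, e6, fun X hX => e7 X (mem_filter.mp (e1 hX)).1⟩
  · have : ∀ X ∈ F, ∃ u : Fin l → Option U, ∀ a, a ∈ X ↔ ∃ i, u i = some a := fun X hX =>
      ⟨fun i => if hi : i.val < X.card then some (X.equivFin.symm ⟨i, hi⟩).1 else none,
        fun a => ⟨fun ha => ⟨⟨X.equivFin ⟨a, ha⟩, (X.equivFin ⟨a, ha⟩).2.trans_le (h2 X hX)⟩,
          by simp⟩, fun ⟨i, hi⟩ => by
          by_cases h' : i.val < X.card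
          · simp only [h', dite_true, Option.some.injEq] at hi
            exact hi ▸ (X.equivFin.symm ⟨i, h'⟩).2
          · simp [h'] at hi⟩⟩
    choose! u hu using this
    have := card_le_card_of_injOn (s := F) (t := (univ : Finset (Fin l → Option U))) u
      (fun _ _ => mem_coe.mpr (mem_univ _)) fun X hX X' hX' e => by
        ext a; rw [hu X hX, hu X' hX', e]
    simpa using this
  · obtain ⟨Y, hY, hm⟩ := exists_min_image (F.filter fun Y => Y ⊆ X) card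
      ⟨X, mem_filter.mpr ⟨h1 hX, Subset.refl _⟩⟩
    obtain ⟨e1, e2⟩ := mem_filter.mp hY
    exact ⟨Y, mem_filter.mpr ⟨e1, fun Z hZ e => (eq_of_subset_of_card_le e
      (hm Z (mem_filter.mpr ⟨hZ, e.trans e2⟩))).symm.subset⟩, e2⟩
  · by_contra hc
    exact hχ (mem_filter.mpr ⟨mem_univ _, ⟨Y, (mem_filter.mp hY).1, e⟩,
      fun X hX e' => hc ⟨X, hX, e'⟩⟩)

/-- Parameters. -/
structure Par where
  k : ℕ
  n : ℕ
  q : ℕ
  l : ℕ
  r : ℕ
  b : ℕ
  η : ℕ
  hn : 0 < n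
  hl : 0 < l
  hr : 0 < r
  hq : l ≤ q
  hb : 2 ≤ b
  hη : ∀ x, x * (q ^ l) ^ r ≤ (q ^ l - 1) ^ r * q ^ (k * n) → x ≤ η

namespace Par

variable (P : Par)

abbrev U := Fin P.k × Fin P.n
abbrev Pos := Fin P.k → Fin P.n
abbrev Col := P.U → Fin P.q
abbrev T := P.Pos ⊕ P.Col

def μ : ℕ := (P.l * P.r) ^ P.l
def εp : ℕ := (P.b * P.μ) ^ (P.l + 1) * P.n ^ (P.k - (P.l + 1))
def εn : ℕ := P.η * (P.k * P.n + 1) ^ P.l

variable {P}

def In (X : Finset P.U) (a : P.Pos) : Prop := ∀ u ∈ X, a u.1 = u.2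

theorem in_card (X : Finset P.U) {j : ℕ} (hj : j ≤ X.card) :
    (univ.filter fun a : P.Pos => In X a).card ≤ P.n ^ (P.k - j) := by
  rcases (univ.filter fun a : P.Pos => In X a).eq_empty_or_nonempty with e | ⟨a, ha⟩
  · rw [e]; simp
  · have h := (mem_filter.mp ha).2
    have h1 : (X.image Prod.fst).card = X.card := card_image_of_injOn fun u hu u' hu' e =>
      Prod.ext e (by rw [← h u hu, ← h u' hu', e])
    refine (fiber_card (X.image Prod.fst)ᶜ a _ fun a' ha' i hi => ?_).trans ?_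
    · obtain ⟨u, hu, rfl⟩ := mem_image.mp (not_not.mp (mem_compl.not.mp hi))
      rw [(mem_filter.mp ha').2 u hu, h u hu]
    · rw [Fintype.card_fin, card_compl, Fintype.card_fin, h1]
      exact Nat.pow_le_pow_right P.hn (by omega)

def Apx (B : Finset P.T) (f : P.T → Prop) : Prop :=
  ∃ M : Finset (Finset P.U), M.card ≤ P.μ ∧
    (∀ a, Sum.inl a ∉ B → f (Sum.inl a) → ∃ X ∈ M, In X a) ∧
    ∀ χ, Sum.inr χ ∉ B → (∃ X ∈ M, Set.InjOn χ X) → f (Sum.inr χ)

def Sm (c : ℕ) (D : Finset P.T) : Prop :=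
  D.toLeft.card ≤ c * P.εp ∧ D.toRight.card ≤ c * P.εn

def Nx (c : ℕ) (B : Finset P.T) (f : P.T → Prop) : Prop := ∃ D, Sm c D ∧ Apx (B ∪ D) f

theorem Apx.mono {B B' : Finset P.T} {f : P.T → Prop} (h : Apx B f) (hB : B ⊆ B') : Apx B' f := by
  obtain ⟨M, h1, h2, h3⟩ := h
  exact ⟨M, h1, fun a ha => h2 a fun e => ha (hB e), fun a ha => h3 a fun e => ha (hB e)⟩

theorem Sm.empty (c : ℕ) : Sm c (∅ : Finset P.T) := by
  have h1 : (∅ : Finset P.T).toLeft = ∅ := by ext; simp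
  have h2 : (∅ : Finset P.T).toRight = ∅ := by ext; simp
  simp [Sm, h1, h2]

theorem Sm.union {c c' : ℕ} {D D' : Finset P.T} (h : Sm c D) (h' : Sm c' D') :
    Sm (c + c') (D ∪ D') := by
  unfold Sm
  rw [toLeft_union, toRight_union, add_mul, add_mul]
  exact ⟨(card_union_le _ _).trans (add_le_add h.1 h'.1),
    (card_union_le _ _).trans (add_le_add h.2 h'.2)⟩

theorem Sm.mono {c c' : ℕ} {D : Finset P.T} (h : Sm c D) (hc : c ≤ c') : Sm c' D :=
  ⟨h.1.trans (Nat.mul_le_mul_right _ hc), h.2.trans (Nat.mul_le_mul_right _ hc)⟩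

theorem Nx.mono {c c' : ℕ} {B : Finset P.T} {f : P.T → Prop} (h : Nx c B f) (hc : c ≤ c') :
    Nx c' B f := by
  obtain ⟨D, h1, h2⟩ := h
  exact ⟨D, h1.mono hc, h2⟩

theorem Apx.nx {B : Finset P.T} {f : P.T → Prop} (h : Apx B f) : Nx 0 B f :=
  ⟨∅, Sm.empty _, h.mono subset_union_left⟩

theorem family {ι : Type} {c : ℕ} {B : Finset P.T} {f : ι → P.T → Prop} (S : Finset ι) :
    (∀ i ∈ S, Nx c B (f i)) → ∃ D, Sm (S.card * c) D ∧ ∀ i ∈ S, Apx (B ∪ D) (f i) := by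
  induction S using Finset.induction_on with
  | empty => exact fun _ => ⟨∅, Sm.empty _, by simp⟩
  | insert i S hi ih =>
    intro h
    obtain ⟨D, h1, h2⟩ := ih fun j hj => h j (mem_insert_of_mem hj)
    obtain ⟨D', h3, h4⟩ := h i (mem_insert_self _ _)
    refine ⟨D ∪ D', by rw [card_insert_of_notMem hi, add_mul, one_mul]; exact h1.union h3,
      fun j hj => ?_⟩
    rcases mem_insert.mp hj with e | e
    · rw [e]; exact h4.mono (union_subset_union_right subset_union_right)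
    · exact (h2 j e).mono (union_subset_union_right subset_union_left)

theorem one_le_μ : 1 ≤ P.μ := Nat.one_le_pow _ _ (Nat.mul_pos P.hl P.hr)

theorem apx_edge (B : Finset P.T) {f : P.T → Prop} (X : Finset P.U)
    (h1 : ∀ a, f (Sum.inl a) → In X a) (h2 : ∀ χ : P.Col, Set.InjOn χ X → f (Sum.inr χ)) :
    Apx B f :=
  ⟨{X}, by simpa using one_le_μ, fun a _ h => ⟨X, mem_singleton_self _, h1 a h⟩,
    fun χ _ ⟨_, h, h'⟩ => h2 χ (mem_singleton.mp h ▸ h')⟩

theorem apx_never (B : Finset P.T) {f : P.T → Prop} (h : ∀ a, ¬ f (Sum.inl a)) : Apx B f :=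
  ⟨∅, by simp, fun a _ h' => absurd h' (h a), by simp⟩

theorem apx_always (B : Finset P.T) {f : P.T → Prop} (h : ∀ χ, f (Sum.inr χ)) : Apx B f :=
  apx_edge B ∅ (fun _ _ => by simp [In]) fun χ _ => h χ

def Dom {ι : Type} (S : Finset ι) (f : ι → P.T → Prop) (g : P.T → Prop) : Prop :=
  ∀ a χ, (∀ i ∈ S, f i (Sum.inl a) → f i (Sum.inr χ)) → g (Sum.inl a) → g (Sum.inr χ)

theorem step {ι : Type} {B : Finset P.T} {f : ι → P.T → Prop} {g : P.T → Prop} {S : Finset ι}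
    (hS : S.card ≤ P.b) (h : ∀ i ∈ S, Apx B (f i)) (hd : Dom S f g) : Nx 1 B g := by
  choose! M h1 h2 h3 using h
  obtain ⟨X, hX⟩ : ∃ X, X = S.biUnion M := ⟨_, rfl⟩
  have hc : X.card ≤ P.b * P.μ := hX ▸
    (card_biUnion_le_card_mul _ _ _ h1).trans (Nat.mul_le_mul_right _ hS)
  obtain ⟨W, hW⟩ : ∃ W : P.Pos → Finset P.U, ∀ a u, u ∈ W a ↔ ∃ Y ∈ X, In Y a ∧ u ∈ Y :=
    ⟨fun a => (X.filter fun Y => In Y a).biUnion id, fun a u => by simp [and_assoc]⟩
  obtain ⟨M', D, e1, e2, e3, e4⟩ := compress P.hl P.hr P.hq (by simpa using P.hη)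
    ((univ.filter fun a => Sum.inl a ∉ B ∧ g (Sum.inl a) ∧ (W a).card ≤ P.l).image W)
    (fun Y hY => by
      obtain ⟨a, ha, rfl⟩ := mem_image.mp hY
      exact (mem_filter.mp ha).2.2.2)
  refine ⟨(univ.filter fun a => P.l + 1 ≤ (W a).card).disjSum D, ⟨?_, ?_⟩, M', e1,
    fun a ha hg => ?_, fun χ hχ hY => ?_⟩
  · rw [toLeft_disjSum, one_mul]
    have hs : (univ.filter fun a => P.l + 1 ≤ (W a).card) ⊆
        ((Fintype.piFinset fun _ : Fin (P.l + 1) => X).filter fun τ =>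
          P.l + 1 ≤ (univ.biUnion τ).card).biUnion fun τ =>
          univ.filter fun a => In (univ.biUnion τ) a := by
      intro a ha
      obtain ⟨Z, e5, e6⟩ := exists_subset_card_eq (mem_filter.mp ha).2
      have e := (Z.equivFinOfCardEq e6).symm
      choose τ t1 t2 t3 using fun i => (hW a (e i).1).mp (e5 (e i).2)
      refine mem_biUnion.mpr ⟨τ, mem_filter.mpr ⟨Fintype.mem_piFinset.mpr t1, e6.ge.trans <| card_le_card
        fun u hu => mem_biUnion.mpr ⟨e.symm ⟨u, hu⟩, mem_univ _, by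
          simpa using t3 (e.symm ⟨u, hu⟩)⟩⟩, mem_filter.mpr ⟨mem_univ _, fun u hu => ?_⟩⟩
      obtain ⟨i, -, hi⟩ := mem_biUnion.mp hu
      exact t2 i u hi
    refine (card_le_card hs).trans ((card_biUnion_le_card_mul _ _ _ fun τ hτ =>
      in_card _ (mem_filter.mp hτ).2).trans (Nat.mul_le_mul_right _ ?_))
    refine (card_filter_le _ _).trans ?_
    rw [Fintype.card_piFinset, prod_const, card_univ, Fintype.card_fin]
    exact Nat.pow_le_pow_left hc _
  · rw [toRight_disjSum, one_mul]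
    simpa [εn] using e2
  · rw [mem_union, not_or, inl_mem_disjSum, mem_filter] at ha
    obtain ⟨Y, e5, e6⟩ := e3 (W a) (mem_image_of_mem _ (mem_filter.mpr ⟨mem_univ _, ha.1, hg,
      Nat.lt_succ_iff.mp (not_le.mp fun e => ha.2 ⟨mem_univ _, e⟩)⟩))
    refine ⟨Y, e5, fun u hu => ?_⟩
    obtain ⟨Z, -, e7, e8⟩ := (hW a u).mp (e6 hu)
    exact e7 u e8
  · rw [mem_union, not_or, inr_mem_disjSum] at hχ
    obtain ⟨Y, e5, e6⟩ := e4 χ hχ.2 hY
    obtain ⟨a, ha, rfl⟩ := mem_image.mp e5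
    obtain ⟨e7, e8, -⟩ := (mem_filter.mp ha).2
    refine hd a χ (fun i hi hf => ?_) e8
    obtain ⟨Z, e9, e10⟩ := h2 i hi a e7 hf
    exact h3 i hi χ hχ.1 ⟨Z, e9, e6.mono fun u hu =>
      (hW a u).mpr ⟨Z, hX ▸ mem_biUnion.mpr ⟨i, hi, e9⟩, e10, hu⟩⟩

theorem nx_dom {ι : Type} {c : ℕ} {B : Finset P.T} {f : ι → P.T → Prop} {g : P.T → Prop}
    {S : Finset ι} (hS : S.card ≤ P.b) (h : ∀ i ∈ S, Nx c B (f i)) (hd : Dom S f g) :
    Nx (S.card * c + 1) B g := by
  obtain ⟨D, h1, h2⟩ := family S h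
  obtain ⟨D', h3, h4⟩ := step hS h2 hd
  exact ⟨D ∪ D', h1.union h3, by rwa [← union_assoc]⟩

theorem fold {ι : Type} (o : Prop → Prop → Prop) (ho : ∀ p p' q q', (p → p') → (q → q') →
    o p q → o p' q') {B : Finset P.T} {f : ι → P.T → Prop} {G : Finset ι → P.T → Prop}
    (h0 : Apx B (G ∅)) (h1 : ∀ i S t, G (insert i S) t ↔ o (f i t) (G S t)) (S : Finset ι) :
    (∀ i ∈ S, Apx B (f i)) → Nx S.card B (G S) := by
  induction S using Finset.induction_on with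
  | empty => exact fun _ => h0.nx
  | insert i S hi ih =>
    intro h
    obtain ⟨D, h2, h3⟩ := ih fun j hj => h j (mem_insert_of_mem hj)
    obtain ⟨D', h4, h5⟩ := step (B := B ∪ D) (S := (univ : Finset Bool)) (g := G (insert i S))
      (f := fun x => if x then f i else G S) (by simpa using P.hb) (fun x _ => by
        cases x
        · simpa using h3
        · simpa using (h i (mem_insert_self _ _)).mono subset_union_left) fun a χ e => by
        rw [h1, h1]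
        exact ho _ _ _ _ (by simpa using e true (mem_univ _)) (by simpa using e false (mem_univ _))
    exact ⟨D ∪ D', by rw [card_insert_of_notMem hi]; exact h2.union h4, by rwa [← union_assoc]⟩

theorem nx_and {ι : Type} {c : ℕ} {B : Finset P.T} {f : ι → P.T → Prop} (S : Finset ι)
    (h : ∀ i ∈ S, Nx c B (f i)) : Nx (S.card * (c + 1)) B fun t => ∀ i ∈ S, f i t := by
  obtain ⟨D, h1, h2⟩ := family S h
  obtain ⟨D', h3, h4⟩ := fold And (fun _ _ _ _ a b c => ⟨a c.1, b c.2⟩) (f := f)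
    (G := fun S t => ∀ i ∈ S, f i t) (apx_always _ (by simp)) (by simp) S h2
  exact ⟨D ∪ D', by rw [mul_add, mul_one]; exact h1.union h3, by rwa [← union_assoc]⟩

theorem nx_or {ι : Type} {c : ℕ} {B : Finset P.T} {f : ι → P.T → Prop} (S : Finset ι)
    (h : ∀ i ∈ S, Nx c B (f i)) : Nx (S.card * (c + 1)) B fun t => ∃ i ∈ S, f i t := by
  obtain ⟨D, h1, h2⟩ := family S h
  obtain ⟨D', h3, h4⟩ := fold Or (fun _ _ _ _ a b c => c.imp a b) (f := f)
    (G := fun S t => ∃ i ∈ S, f i t) (apx_never _ (by simp)) (by simp) S h2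
  exact ⟨D ∪ D', by rw [mul_add, mul_one]; exact h1.union h3, by rwa [← union_assoc]⟩

theorem Nx.weak {c : ℕ} {B : Finset P.T} {f g : P.T → Prop} (h : Nx c B f)
    (h1 : ∀ a, g (Sum.inl a) → f (Sum.inl a)) (h2 : ∀ χ, f (Sum.inr χ) → g (Sum.inr χ)) :
    Nx c B g := by
  obtain ⟨D, e, M, e1, e2, e3⟩ := h
  exact ⟨D, e, M, e1, fun a ha hg => e2 a ha (h1 a hg), fun χ hχ hg => h2 χ (e3 χ hχ hg)⟩

theorem no_sep {e : ℕ} {B : Finset P.T} {g : P.T → Prop} (hB : Sm e B) (h : Apx B g)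
    (h1 : ∀ a, g (Sum.inl a)) (h2 : ∀ χ, ¬ g (Sum.inr χ))
    (h3 : e * P.εp + P.μ * P.n ^ (P.k - 1) < P.n ^ P.k) (h4 : e * P.εn < P.q ^ (P.k * P.n)) :
    False := by
  obtain ⟨M, e1, e2, e3⟩ := h
  by_cases h0 : ∅ ∈ M
  · have : (univ : Finset P.Col) ⊆ B.toRight := fun χ _ => by
      by_contra hc
      exact h2 χ (e3 χ (by simpa using hc) ⟨∅, h0, by simp⟩)
    have := (card_le_card this).trans hB.2
    simp only [card_univ, Fintype.card_fun, Fintype.card_prod, Fintype.card_fin] at this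
    omega
  · have : (univ : Finset P.Pos) ⊆ B.toLeft ∪ M.biUnion fun X => univ.filter fun a => In X a := by
      intro a _
      by_cases hc : a ∈ B.toLeft
      · exact mem_union_left _ hc
      · obtain ⟨X, e4, e5⟩ := e2 a (by simpa using hc) (h1 a)
        exact mem_union_right _ (mem_biUnion.mpr ⟨X, e4, mem_filter.mpr ⟨mem_univ _, e5⟩⟩)
    have := (card_le_card this).trans ((card_union_le _ _).trans (add_le_add hB.1
      ((card_biUnion_le_card_mul _ _ _ fun X hX => in_card X (j := 1) (card_pos.mpr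
        (nonempty_iff_ne_empty.mpr fun e => h0 (e ▸ hX)))).trans (Nat.mul_le_mul_right _ e1))))
    simp only [card_univ, Fintype.card_fun, Fintype.card_fin] at this
    omega

end Par

end Pool.Agent.Lib.MP_ddf912_lc.Neg
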