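import Pool.Agent.Lib.MP_ddf912_lc.Neg.Defs

/-! Monotonicity of wires between negation flips, and the chain argument. -/

set_option autoImplicit false

namespace Pool.Agent.Lib.MP_ddf912_lc.Neg

open Finset Classical
open AC (Sat vars)

variable {ι : Type} {C : Circuit ι}

def rank (C : Circuit ι) : ι ⊕ Fin C.n → ℕ
  | Sum.inl _ => 0
  | Sum.inr i => i.val + 1

theorem rank_le {i : Fin C.n} {u : ι ⊕ Fin C.n} (h : ∀ j, u = Sum.inr j → j < i) :
    rank C u ≤ i.val := by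
  cases u with
  | inl x => exact Nat.zero_le _
  | inr j => exact h j rfl

theorem rank_ins {i : Fin C.n} {u : ι ⊕ Fin C.n} (h : u ∈ C.ins i) : rank C u ≤ i.val :=
  rank_le fun j e => C.ins_lt i j (e ▸ h)

theorem mem_cnf {w : ι ⊕ Fin C.n → Prop} {i : Fin C.n} {c : Finset (Fin C.M × Bool)} :
    c ∈ C.cnf w i ↔ ∃ a, (w (C.used i a) ↔ C.kind i = Gate.unsat) ∧
      ∀ l, l ∈ c ↔ (w (C.lit i a l) ↔ C.kind i = Gate.sat) := by
  simp only [Circuit.cnf, mem_image, mem_filter, mem_univ, true_and]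
  refine exists_congr fun a => and_congr_right fun _ => ⟨fun e l => by simp [← e], fun e => ?_⟩
  ext l
  simp [e l]

theorem cnf_slot {w : ι ⊕ Fin C.n → Prop} {i : Fin C.n} {a : Fin C.m}
    (h : w (C.used i a) ↔ C.kind i = Gate.unsat) : ∃ c ∈ C.cnf w i,
      ∀ l, l ∈ c ↔ (w (C.lit i a l) ↔ C.kind i = Gate.sat) :=
  ⟨univ.filter fun l => w (C.lit i a l) ↔ C.kind i = Gate.sat,
    mem_cnf.mpr ⟨a, h, by simp⟩, by simp⟩

theorem gate_mono {w w' : ι ⊕ Fin C.n → Prop} {i : Fin C.n} (hk : C.kind i ≠ Gate.nor)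
    (h : ∀ u, rank C u ≤ i.val → w u → w' u) : C.gateVal w i → C.gateVal w' i := by
  unfold Circuit.gateVal
  cases e : C.kind i with
  | conj => exact fun hw u hu => h u (rank_ins hu) (hw u hu)
  | disj => exact fun ⟨u, hu, hw⟩ => ⟨u, hu, h u (rank_ins hu) hw⟩
  | nor => exact absurd e hk
  | sat =>
    rintro ⟨θ, hθ⟩
    refine ⟨θ, fun c' hc' => ?_⟩
    obtain ⟨a, e1, e2⟩ := mem_cnf.mp hc'
    obtain ⟨c, e3, e4⟩ := cnf_slot (w := w) (a := a) ⟨fun e5 => e1.mp
      (h _ (rank_le fun j => C.used_lt i a j (Or.inl e)) e5), by simp [e]⟩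
    obtain ⟨l, e5, e6⟩ := hθ c e3
    exact ⟨l, (e2 l).mpr ⟨fun _ => e, fun _ => h _ (rank_le fun j => C.lit_lt i a l j (Or.inl e))
      (((e4 l).mp e5).mpr e)⟩, e6⟩
  | unsat =>
    rintro hθ ⟨θ, hθ'⟩
    refine hθ ⟨θ, fun c hc => ?_⟩
    obtain ⟨a, e1, e2⟩ := mem_cnf.mp hc
    obtain ⟨c', e3, e4⟩ := cnf_slot (w := w') (a := a) ⟨fun _ => e, fun _ =>
      h _ (rank_le fun j => C.used_lt i a j (Or.inr e)) (e1.mpr e)⟩
    obtain ⟨l, e5, e6⟩ := hθ' c' e3
    exact ⟨l, (e2 l).mpr ⟨fun e7 => ((e4 l).mp e5).mp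
      (h _ (rank_le fun j => C.lit_lt i a l j (Or.inr e)) e7), by simp [e]⟩, e6⟩

theorem wire_mono {w w' : ι ⊕ Fin C.n → Prop} (hw : ∀ i, w (Sum.inr i) ↔ C.gateVal w i)
    (hw' : ∀ i, w' (Sum.inr i) ↔ C.gateVal w' i) (h0 : ∀ x, w (Sum.inl x) → w' (Sum.inl x))
    (j : ℕ) : (∀ i : Fin C.n, i.val < j → C.kind i = Gate.nor → w (Sum.inr i) → w' (Sum.inr i)) →
      ∀ u, rank C u ≤ j → w u → w' u := by
  induction j with
  | zero =>
    rintro - (x | i) hu
    · exact h0 x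
    · exact absurd hu (by simp [rank])
  | succ j ih =>
    rintro h (x | i) hu
    · exact h0 x
    · by_cases hk : C.kind i = Gate.nor
      · exact h i hu hk
      · rw [hw, hw']
        exact gate_mono hk fun u hu' => ih (fun i hi => h i (by omega)) u (by
          have : i.val + 1 ≤ j + 1 := hu
          omega)

theorem nor_anti {w w' : ι ⊕ Fin C.n → Prop} (hw : ∀ i, w (Sum.inr i) ↔ C.gateVal w i)
    (hw' : ∀ i, w' (Sum.inr i) ↔ C.gateVal w' i) (h0 : ∀ x, w (Sum.inl x) → w' (Sum.inl x))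
    {i : Fin C.n} (hk : C.kind i = Gate.nor)
    (h : ∀ j : Fin C.n, j.val < i.val → C.kind j = Gate.nor → w (Sum.inr j) → w' (Sum.inr j)) :
    w' (Sum.inr i) → w (Sum.inr i) := by
  rw [hw, hw']
  simp only [Circuit.gateVal, hk]
  exact fun e u hu e' => e u hu (wire_mono hw hw' h0 _ h u (rank_ins hu) e')

theorem sandwich {w1 w2 w3 : ι ⊕ Fin C.n → Prop} (h1 : ∀ i, w1 (Sum.inr i) ↔ C.gateVal w1 i)
    (h2 : ∀ i, w2 (Sum.inr i) ↔ C.gateVal w2 i) (h3 : ∀ i, w3 (Sum.inr i) ↔ C.gateVal w3 i)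
    (h12 : ∀ x, w1 (Sum.inl x) → w2 (Sum.inl x)) (h23 : ∀ x, w2 (Sum.inl x) → w3 (Sum.inl x))
    (h : ∀ i, C.kind i = Gate.nor → (w1 (Sum.inr i) ↔ w3 (Sum.inr i))) :
    ∀ i, C.kind i = Gate.nor → (w2 (Sum.inr i) ↔ w3 (Sum.inr i)) := by
  have : ∀ j : ℕ, ∀ i : Fin C.n, i.val = j → C.kind i = Gate.nor →
      (w2 (Sum.inr i) ↔ w3 (Sum.inr i)) := by
    intro j
    induction j using Nat.strong_induction_on with
    | _ j ih =>
      intro i hi hk
      exact ⟨fun e => (h i hk).mp (nor_anti h1 h2 h12 hk (fun j' hj hk' e' =>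
        (ih _ (hi ▸ hj) j' rfl hk').mpr ((h j' hk').mp e')) e),
        nor_anti h2 h3 h23 hk fun j' hj hk' => (ih _ (hi ▸ hj) j' rfl hk').mp⟩
  exact fun i => this _ i rfl

theorem greedy {β Γ γ A : Type} [Fintype β] [DecidableEq β] [PartialOrder Γ] [OrderBot Γ]
    (K : γ → Γ) (Q : Γ → Prop) (h0 : Q ⊥) (hK : ∀ x, Q (K x)) (α : (β → Γ) → A) (T : Finset A)
    (hT : ∀ c, α c ∈ T) (hc : T.card ≤ Fintype.card β)
    (sand : ∀ c1 c2 c3, c1 ≤ c2 → c2 ≤ c3 → α c1 = α c3 → α c2 = α c3) :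
    ∃ c b, (∀ b, Q (c b)) ∧ c b = ⊥ ∧ ∀ x, α (Function.update c b (K x)) = α c := by
  by_contra hcon
  push Not at hcon
  have : ∀ j, j ≤ Fintype.card β → ∃ (c : β → Γ) (S : Finset A), (∀ b, Q (c b)) ∧
      (univ.filter fun b => c b ≠ ⊥).card ≤ j ∧ j + 1 ≤ S.card ∧ ∀ s ∈ S, ∃ g, g ≤ c ∧ α g = s := by
    intro j
    induction j with
    | zero => exact fun _ => ⟨fun _ => ⊥, {α fun _ => ⊥}, fun _ => h0, by simp, by simp,
        fun s hs => ⟨_, le_rfl, (mem_singleton.mp hs).symm⟩⟩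
    | succ j ih =>
      intro hj
      obtain ⟨c, S, e1, e2, e3, e4⟩ := ih (by omega)
      obtain ⟨b, -, hb⟩ := exists_mem_notMem_of_card_lt_card (s := univ.filter fun b => c b ≠ ⊥)
        (t := univ) (by rw [card_univ]; omega)
      have hb' : c b = ⊥ := by simpa using hb
      obtain ⟨x, hx⟩ := hcon c b e1 hb'
      have hle : c ≤ Function.update c b (K x) := fun b' => by
        by_cases e : b' = b
        · rw [e, hb']; exact bot_le
        · rw [Function.update_of_ne e]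
      refine ⟨Function.update c b (K x), insert (α (Function.update c b (K x))) S, fun b' => ?_,
        ?_, ?_, fun s hs => ?_⟩
      · by_cases e : b' = b
        · rw [e, Function.update_self]; exact hK x
        · rw [Function.update_of_ne e]; exact e1 b'
      · refine (card_le_card (t := insert b (univ.filter fun b => c b ≠ ⊥)) fun b' hb' => ?_).trans
          ((card_insert_le _ _).trans (by omega))
        by_cases e : b' = b
        · rw [e]; exact mem_insert_self _ _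
        · have := (mem_filter.mp hb').2
          rw [Function.update_of_ne e] at this
          exact mem_insert_of_mem (mem_filter.mpr ⟨mem_univ _, this⟩)
      · rw [card_insert_of_notMem]
        · omega
        · intro hs
          obtain ⟨g, e5, e6⟩ := e4 _ hs
          exact hx (sand _ _ _ e5 hle e6).symm
      · rcases mem_insert.mp hs with e | e
        · exact ⟨_, le_rfl, e.symm⟩
        · obtain ⟨g, e5, e6⟩ := e4 s e
          exact ⟨g, e5.trans hle, e6⟩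
  obtain ⟨c, S, -, -, e3, e4⟩ := this _ le_rfl
  have := card_le_card (s := S) (t := T) fun s hs => by
    obtain ⟨g, -, e⟩ := e4 s hs
    exact e ▸ hT g
  omega

end Pool.Agent.Lib.MP_ddf912_lc.Neg
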