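import Mathlib

/-! Many copies of a vertex set whose complete graphs are edge-disjoint and span no new triangle. -/

set_option autoImplicit false

namespace Pool.Agent.Lib.MP_ddf912_lc.Neg

open Finset Classical

structure Packing {β U V : Type} (pt : β → U → V) : Prop where
  lay : ∀ b b' u u', pt b u = pt b' u' → u = u'
  part : ∀ b b' u u', u ≠ u' → pt b u = pt b' u → pt b u' = pt b' u' → b = b'
  tri : ∀ b b' b'' u u' u'', u ≠ u' → u ≠ u'' → u' ≠ u'' → pt b u = pt b' u → pt b u' = pt b'' u' →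
    pt b' u'' = pt b'' u'' → b = b'

theorem sphere_eq {s : ℕ} {A B : ℤ} (hA : A ≠ 0) (hB : B ≠ 0) (hC : A + B ≠ 0)
    {d d' d'' : Fin s → ℤ} (h : ∀ i, A * d i + B * d'' i = (A + B) * d' i)
    (h1 : ∑ i, d i ^ 2 = ∑ i, d' i ^ 2) (h2 : ∑ i, d'' i ^ 2 = ∑ i, d' i ^ 2) (i : Fin s) :
    d i = d' i := by
  have e1 : ∑ i, A * B * (d i - d'' i) ^ 2 = ∑ i, ((A + B) * A * d i ^ 2 +
      (A + B) * B * d'' i ^ 2 - (A + B) ^ 2 * d' i ^ 2) :=
    sum_congr rfl fun i _ => by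
      rw [← mul_pow, ← h i]; ring
  rw [← mul_sum, sum_sub_distrib, sum_add_distrib, ← mul_sum, ← mul_sum, ← mul_sum, h1, h2] at e1
  have e2 : ∑ i, (d i - d'' i) ^ 2 = 0 :=
    (mul_eq_zero.mp (e1.trans (by ring))).resolve_left (mul_ne_zero hA hB)
  have e3 := (sum_eq_zero_iff_of_nonneg fun i _ => sq_nonneg (d i - d'' i)).mp e2 i (mem_univ _)
  have e4 : d'' i = d i := by nlinarith
  have := h i
  rw [e4, ← add_mul] at this
  exact mul_left_cancel₀ hC this

theorem exists_packing (k n s X D N : ℕ) (hN : k * n * (X + k * n * D) ^ s ≤ N) :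
    ∃ (L : ℕ) (pt : Fin L → Fin k × Fin n → Fin N), Packing pt ∧
      X ^ s * D ^ s ≤ L * (s * D ^ 2 + 1) := by
  obtain ⟨ρ, -, hρ⟩ := exists_max_image (range (s * D ^ 2 + 1)) (fun ρ =>
    (univ.filter fun d : Fin s → Fin D => ∑ i, (d i).val ^ 2 = ρ).card) ⟨0, by simp⟩
  have h1 := card_le_mul_card_image_of_maps_to (s := (univ : Finset (Fin s → Fin D)))
    (t := range (s * D ^ 2 + 1)) (f := fun d => ∑ i, (d i).val ^ 2) (fun d _ => by
      have := sum_le_card_nsmul univ (fun i => (d i).val ^ 2) (D ^ 2) fun i _ =>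
        Nat.pow_le_pow_left (d i).2.le 2
      simpa [Nat.lt_succ_iff] using this) _ hρ
  set S := univ.filter fun d : Fin s → Fin D => ∑ i, (d i).val ^ 2 = ρ
  obtain ⟨e⟩ : Nonempty (Fin (k * n) × (Fin s → Fin (X + k * n * D)) ↪ Fin N) :=
    Function.Embedding.nonempty_of_card_le (by simpa using hN)
  have φ := (Fintype.equivFin ((Fin s → Fin X) × S)).symm
  have ψ : Fin k × Fin n ≃ Fin (k * n) := finProdFinEquiv
  have hz : ∀ (z z' : (Fin s → Fin X) × S) (u : Fin (k * n)), (∀ i, (z.2.1 i : ℤ) = z'.2.1 i) →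
      (∀ i, (z.1 i : ℤ) + u * z.2.1 i = z'.1 i + u * z'.2.1 i) → z = z' := fun z z' u h h' =>
    Prod.ext (funext fun i => Fin.ext (by have := h' i; rw [h i] at this; omega))
      (Subtype.ext (funext fun i => Fin.ext (by exact_mod_cast h i)))
  have hs : ∀ z : (Fin s → Fin X) × S, ∑ i, (z.2.1 i : ℤ) ^ 2 = ρ := fun z => by
    exact_mod_cast (mem_filter.mp z.2.2).2
  have hψ : ∀ u u', u ≠ u' → (ψ u' : ℤ) - ψ u ≠ 0 := fun u u' h e =>
    h (ψ.injective (Fin.ext (by omega)))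
  obtain ⟨pt, p1, p2⟩ : ∃ pt : Fin (Fintype.card ((Fin s → Fin X) × S)) → Fin k × Fin n → Fin N,
      (∀ b b' u u', pt b u = pt b' u' → u = u') ∧ ∀ b b' u, pt b u = pt b' u → ∀ i,
        ((φ b).1 i : ℤ) + ψ u * (φ b).2.1 i = (φ b').1 i + ψ u * (φ b').2.1 i :=
    ⟨fun b u => e (ψ u, fun i => ⟨(φ b).1 i + ψ u * (φ b).2.1 i, by
        have := ((φ b).1 i).2
        have := Nat.mul_le_mul (ψ u).2.le ((φ b).2.1 i).2.le
        omega⟩),
      fun b b' u u' h => ψ.injective (congrArg Prod.fst (e.injective h)), fun b b' u h i => by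
        exact_mod_cast congrArg Fin.val (congrFun (congrArg Prod.snd (e.injective h)) i)⟩
  refine ⟨_, pt, ⟨p1, fun b b' u u' h e1 e2 => φ.injective (hz _ _ (ψ u) (fun i => ?_)
    (p2 _ _ _ e1)), fun b b' b'' u u' u'' a1 a2 a3 e1 e2 e3 => φ.injective (hz _ _ (ψ u)
      (sphere_eq (d'' := fun i => (φ b'').2.1 i) (hψ _ _ a1) (hψ _ _ a3)
        (by simpa using hψ _ _ a2) (fun i => ?_) (by rw [hs, hs]) (by rw [hs, hs]))
      (p2 _ _ _ e1))⟩, ?_⟩
  · refine mul_left_cancel₀ (hψ _ _ h) ?_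
    linarith [p2 _ _ _ e1 i, p2 _ _ _ e2 i]
  · linarith [p2 _ _ _ e1 i, p2 _ _ _ e2 i, p2 _ _ _ e3 i]
  · simp only [card_univ, Fintype.card_fun, Fintype.card_fin, card_range, Fintype.card_prod,
      Fintype.card_coe] at h1 ⊢
    rw [mul_assoc]
    exact Nat.mul_le_mul_left _ h1

variable {β U V : Type} {pt : β → U → V}

/-- The union of the graphs placed on the blocks. -/
def gr (hp : Packing pt) (c : β → SimpleGraph U) : SimpleGraph V where
  Adj x y := ∃ b u u', (c b).Adj u u' ∧ x = pt b u ∧ y = pt b u'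
  symm := ⟨fun _ _ ⟨b, u, u', h, e, e'⟩ => ⟨b, u', u, h.symm, e', e⟩⟩
  loopless := ⟨fun _ ⟨b, u, u', h, e, e'⟩ => h.ne (hp.lay b b u u' (e.symm.trans e'))⟩

theorem gr_mono (hp : Packing pt) {c c' : β → SimpleGraph U} (h : c ≤ c') {x y : V} :
    (gr hp c).Adj x y → (gr hp c').Adj x y :=
  fun ⟨b, u, u', h', e⟩ => ⟨b, u, u', h b h', e⟩

theorem gr_free (hp : Packing pt) {q : ℕ} (hq : 2 ≤ q) {c : β → SimpleGraph U}
    (h : ∀ b, (c b).Colorable q) : (gr hp c).CliqueFree (q + 1) := by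
  rintro s ⟨h1, h2⟩
  obtain ⟨x, hx, y, hy, hxy⟩ := one_lt_card.mp (show 1 < s.card by omega)
  obtain ⟨b, u, u', e1, e2, e3⟩ := h1 hx hy hxy
  have h3 : ∀ z ∈ s, ∃ v, z = pt b v := by
    intro z hz
    by_cases a1 : x = z
    · exact ⟨u, a1 ▸ e2⟩
    by_cases a2 : y = z
    · exact ⟨u', a2 ▸ e3⟩
    obtain ⟨b', v, v', e4, e5, e6⟩ := h1 hx hz a1
    obtain ⟨b'', t, t', e7, e8, e9⟩ := h1 hy hz a2
    obtain rfl := hp.lay _ _ _ _ (e2.symm.trans e5)
    obtain rfl := hp.lay _ _ _ _ (e3.symm.trans e8)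
    obtain rfl := hp.lay _ _ _ _ (e6.symm.trans e9)
    rw [hp.tri b b' b'' _ _ _ e1.ne e4.ne e7.ne (e2.symm.trans e5) (e3.symm.trans e8)
      (e6.symm.trans e9)]
    exact ⟨_, e6⟩
  have : Nonempty U := ⟨u⟩
  choose! v hv using h3
  obtain ⟨χ⟩ := h b
  have := card_le_card_of_injOn (s := s) (t := (univ : Finset (Fin q))) (fun z => χ (v z))
    (fun _ _ => mem_coe.mpr (mem_univ _)) fun z hz z' hz' e => by
      by_contra hc
      obtain ⟨b', t, t', e4, e5, e6⟩ := h1 hz hz' hc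
      have a1 := hp.lay _ _ _ _ ((hv z hz).symm.trans e5)
      have a2 := hp.lay _ _ _ _ ((hv z' hz').symm.trans e6)
      rw [← a1, ← a2] at e4
      rw [← a1] at e5
      rw [← a2] at e6
      rw [← hp.part b b' _ _ e4.ne ((hv z hz).symm.trans e5) ((hv z' hz').symm.trans e6)] at e4
      exact χ.valid e4 e
  simp only [card_univ, Fintype.card_fin] at this
  omega

end Pool.Agent.Lib.MP_ddf912_lc.Neg
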