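import Pool.Agent.Lib.MP_ddf912_lc.Neg.Sim
import Pool.Agent.Lib.MP_ddf912_lc.Neg.Pack

/-! The combinatorial core. -/

set_option autoImplicit false

namespace Pool.Agent.Lib.MP_ddf912_lc.Neg

open Finset Classical Par
open AC (Sat vars perfect)

/-- Test graphs on one block: a transversal clique, or a complete multipartite graph. -/
def test (P : Par) : P.T → SimpleGraph P.U
  | Sum.inl a =>
    { Adj := fun u u' => u ≠ u' ∧ a u.1 = u.2 ∧ a u'.1 = u'.2
      symm := ⟨fun _ _ h => ⟨h.1.symm, h.2.2, h.2.1⟩⟩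
      loopless := ⟨fun _ h => h.1 rfl⟩ }
  | Sum.inr χ =>
    { Adj := fun u u' => χ u ≠ χ u'
      symm := ⟨fun _ _ h => h.symm⟩
      loopless := ⟨fun _ h => h rfl⟩ }

theorem core (P : Par) {N L H r d g Bt cg : ℕ} (C : Circuit (Fin N × Fin N))
    {pt : Fin L → P.U → Fin N} (hp : Packing pt) (hq : 2 ≤ P.q) (hk : P.k = P.q + 1)
    (hL : 2 ^ C.negs ≤ L) (hC : C.Decides P.k d g) (s1 : C.m * (2 * C.M + 1) ≤ 2 ^ Bt)
    (hH : 2 * (g * Bt * (g * Bt)) < H) (hr : (C.M + 1) ^ (g * Bt) < 2 ^ r)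
    (hb : r * (2 * H + 1) ^ d ≤ P.b) (c1 : N * N + C.n ≤ cg)
    (c2 : P.b * (C.m * (2 * C.M + 2)) + 1 ≤ cg)
    (h3 : (C.n + 1) * cg * P.εp + P.μ * P.n ^ (P.k - 1) < P.n ^ P.k)
    (h4 : (C.n + 1) * cg * P.εn < P.q ^ (P.k * P.n)) : False := by
  choose w w1 w2 w3 w4 using hC
  obtain ⟨h, hh⟩ := perfect hH hr
  have hcol : ∀ χ, (test P (Sum.inr χ)).Colorable P.q := fun χ =>
    ⟨SimpleGraph.Coloring.mk χ fun h => h⟩
  have hle : ∀ c c' : Fin L → SimpleGraph P.U, c ≤ c' → ∀ x,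
      w (gr hp c) (Sum.inl x) → w (gr hp c') (Sum.inl x) := fun c c' e x => by
    rw [w1, w1]; exact gr_mono hp e
  have hα : ∀ G G', ((univ.filter fun i => C.kind i = Gate.nor ∧ w G (Sum.inr i)) =
      univ.filter fun i => C.kind i = Gate.nor ∧ w G' (Sum.inr i)) ↔
      ∀ i, C.kind i = Gate.nor → (w G (Sum.inr i) ↔ w G' (Sum.inr i)) := fun G G' => by
    simp [Finset.ext_iff]
  obtain ⟨c, b, e1, e2, e3⟩ := greedy (fun χ => test P (Sum.inr χ)) (fun G => G.Colorable P.q)
    ⟨SimpleGraph.Coloring.mk (fun _ => ⟨0, by omega⟩) fun h => False.elim h⟩ hcol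
    (fun c : Fin L → SimpleGraph P.U =>
      univ.filter fun i => C.kind i = Gate.nor ∧ w (gr hp c) (Sum.inr i))
    (univ.filter fun i => C.kind i = Gate.nor).powerset
    (fun c => mem_powerset.mpr fun i hi => mem_filter.mpr ⟨mem_univ _, (mem_filter.mp hi).2.1⟩)
    (by
      rw [card_powerset, Fintype.card_fin]
      refine le_trans (le_of_eq ?_) hL
      rw [Circuit.negs, ← Set.ncard_coe_finset, coe_filter]
      simp)
    fun c1 c2 c3 h12 h23 e => (hα _ _).mpr
      (sandwich (w2 _) (w2 _) (w2 _) (hle _ _ h12) (hle _ _ h23) ((hα _ _).mp e))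
  have hup : ∀ t, c ≤ Function.update c b (test P t) := fun t b' => by
    by_cases e : b' = b
    · rw [e, e2]; exact bot_le
    · rw [Function.update_of_ne e]
  have hadj : ∀ t u u', (test P t).Adj u u' →
      (gr hp (Function.update c b (test P t))).Adj (pt b u) (pt b u') := fun t u u' e =>
    ⟨b, u, u', by rwa [Function.update_self], rfl, rfl⟩
  refine sim (W := fun t => w (gr hp (Function.update c b (test P t)))) (w0 := w (gr hp c)) hh hb
    (by simpa using c1) c2 (fun t => w2 _) (w2 _)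
    (fun t i hi => ⟨(w3 _ i hi).1, vars_le _ i s1 (w3 _ i hi).2⟩)
    (fun χ j i _ => (hα _ _).mp (e3 χ) i) (fun t => hle _ _ (hup t)) (fun x => ?_) (fun a => ?_)
    (fun χ => ?_) h3 h4
  · obtain ⟨x, y⟩ := x
    simp only [w1]
    by_cases h0 : (gr hp c).Adj x y
    · exact apx_always _ fun χ => gr_mono hp (hup _) h0
    have h1 : ∀ t, (gr hp (Function.update c b (test P t))).Adj x y →
        ∃ u u', (test P t).Adj u u' ∧ x = pt b u ∧ y = pt b u' := by
      rintro t ⟨b', u, u', e4, e5⟩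
      by_cases e : b' = b
      · rw [e, Function.update_self] at e4
        exact ⟨u, u', e4, e ▸ e5⟩
      · rw [Function.update_of_ne e] at e4
        exact absurd ⟨b', u, u', e4, e5⟩ h0
    by_cases h2 : ∃ u u', u ≠ u' ∧ x = pt b u ∧ y = pt b u'
    · obtain ⟨u, u', e4, e5, e6⟩ := h2
      refine apx_edge _ {u, u'} (fun a ha => ?_) fun χ hχ => ?_
      · obtain ⟨v, v', e7, e8, e9⟩ := h1 _ ha
        rw [hp.lay _ _ _ _ (e5.symm.trans e8), hp.lay _ _ _ _ (e6.symm.trans e9)]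
        intro z hz
        rcases mem_insert.mp hz with e | e
        · rw [e]; exact e7.2.1
        · rw [mem_singleton.mp e]; exact e7.2.2
      · rw [e5, e6]
        exact hadj (Sum.inr χ) _ _ fun e => e4 (hχ (by simp) (by simp) e)
    · exact apx_never _ fun a ha => by
        obtain ⟨v, v', e7, e8⟩ := h1 _ ha
        exact h2 ⟨v, v', e7.ne, e8⟩
  · rw [w4]
    refine fun hf => hf (univ.image fun i => pt b (i, a i)) ⟨?_, ?_⟩
    · intro x hx y hy hxy
      obtain ⟨i, -, rfl⟩ := mem_image.mp hx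
      obtain ⟨j, -, rfl⟩ := mem_image.mp hy
      exact hadj (Sum.inl a) _ _ ⟨fun e => hxy (by rw [e]), rfl, rfl⟩
    · rw [card_image_of_injective _ fun i j e => congrArg Prod.fst (hp.lay _ _ _ _ e)]
      simp
  · rw [w4, not_not]
    refine (gr_free hp hq fun b' => ?_).mono hk.ge
    by_cases e : b' = b
    · rw [e, Function.update_self]; exact hcol χ
    · rw [Function.update_of_ne e]; exact e1 b'

end Pool.Agent.Lib.MP_ddf912_lc.Neg
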