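import Pool.Agent.Lib.MP_ddf912_lc.AC.Defs

namespace Pool.Agent.Lib.MP_ddf912_lc.Neg

open AC (Sat vars)

/-- Gate types: AND, OR, NOR (NOT is NOR of one wire), and the two oracle gates. -/
inductive Gate
  | conj
  | disj
  | nor
  | sat
  | unsat

/-- A circuit with input bits `ι` and `n` gates, listed so that a gate reads input bits and earlier
gates only (no bound on the depth).  An oracle gate reads a CNF formula written as a table with `m`
clause slots over `M` variable names, one wire `used i a` for each slot `a` and one wire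
`lit i a l` for each slot and literal. -/
structure Circuit (ι : Type) where
  n : ℕ
  m : ℕ
  M : ℕ
  kind : Fin n → Gate
  ins : Fin n → Finset (ι ⊕ Fin n)
  used : Fin n → Fin m → ι ⊕ Fin n
  lit : Fin n → Fin m → Fin M × Bool → ι ⊕ Fin n
  out : Fin n
  ins_lt : ∀ i j, Sum.inr j ∈ ins i → j < i
  used_lt : ∀ i a j, kind i = Gate.sat ∨ kind i = Gate.unsat → used i a = Sum.inr j → j < i
  lit_lt : ∀ i a l j, kind i = Gate.sat ∨ kind i = Gate.unsat → lit i a l = Sum.inr j → j < i

open Classical in
/-- The formula read by the oracle gate `i` when the wires carry the values `w`.  At a `sat` gate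
a slot holds a clause if its wire is 0, and a literal is in it if its wire is 1; at an `unsat` gate
0 and 1 are exchanged. -/
noncomputable def Circuit.cnf {ι : Type} (C : Circuit ι) (w : ι ⊕ Fin C.n → Prop) (i : Fin C.n) :
    Finset (Finset (Fin C.M × Bool)) :=
  (Finset.univ.filter fun a => w (C.used i a) ↔ C.kind i = Gate.unsat).image fun a =>
    Finset.univ.filter fun l => w (C.lit i a l) ↔ C.kind i = Gate.sat

/-- The value gate `i` computes from the wire values `w`. -/
def Circuit.gateVal {ι : Type} (C : Circuit ι) (w : ι ⊕ Fin C.n → Prop) (i : Fin C.n) : Prop :=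
  match C.kind i with
  | Gate.conj => ∀ u ∈ C.ins i, w u
  | Gate.disj => ∃ u ∈ C.ins i, w u
  | Gate.nor => ∀ u ∈ C.ins i, ¬ w u
  | Gate.sat => Sat (C.cnf w i)
  | Gate.unsat => ¬ Sat (C.cnf w i)

/-- The number of negation gates. -/
noncomputable def Circuit.negs {ι : Type} (C : Circuit ι) : ℕ := {i | C.kind i = Gate.nor}.ncard

/-- The circuit decides `k`-clique on `N`-vertex graphs given by adjacency matrix, and every
oracle query is a `d`-CNF whose parameter (variables over log of the table's bit length,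
rounded up) is at most `g`. -/
def Circuit.Decides {N : ℕ} (C : Circuit (Fin N × Fin N)) (k d g : ℕ) : Prop :=
  ∀ G : SimpleGraph (Fin N), ∃ w : (Fin N × Fin N) ⊕ Fin C.n → Prop,
    (∀ a b, w (Sum.inl (a, b)) ↔ G.Adj a b) ∧
    (∀ i, w (Sum.inr i) ↔ C.gateVal w i) ∧
    (∀ i, C.kind i = Gate.sat ∨ C.kind i = Gate.unsat → (∀ c ∈ C.cnf w i, c.card ≤ d) ∧
      ⌈((vars (C.cnf w i)).card : ℝ) / Real.logb 2 (C.m * (2 * C.M + 1) : ℕ)⌉₊ ≤ g) ∧
    (w (Sum.inr C.out) ↔ ¬ G.CliqueFree k)

end Pool.Agent.Lib.MP_ddf912_lc.Neg
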