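import Pool.Agent.Lib.MP_ddf912_lc.Neg.Core

/-! Choice of parameters. -/

set_option autoImplicit false

namespace Pool.Agent.Lib.MP_ddf912_lc.Neg

open Finset Filter

theorem ev_poly (a e : ℕ) : ∀ᶠ z : ℕ in atTop, a * z ^ e ≤ 2 ^ z := by
  have h := tendsto_pow_const_div_const_pow_of_one_lt e (r := (2 : ℝ)) (by norm_num)
  have h2 := h.const_mul (a : ℝ)
  rw [mul_zero] at h2
  filter_upwards [h2.eventually (gt_mem_nhds (by norm_num : (0 : ℝ) < 1))] with z hz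
  have h3 : (0 : ℝ) < 2 ^ z := by positivity
  rw [← mul_div_assoc, div_lt_one h3] at hz
  exact_mod_cast hz.le

theorem m0_le {g β z d : ℕ} (hz : 1 ≤ z) :
    (β * z * (g * (β * z)) + 1) * (2 * (2 * (g * (β * z) * (g * (β * z))) + 1) + 1) ^ d ≤
      (g * β * β + 4 * (g * β * (g * β)) + 3) ^ (d + 1) * z ^ (2 * (d + 1)) := by
  have h1 : 1 ≤ z ^ 2 := Nat.one_le_pow _ _ hz
  rw [pow_mul, ← mul_pow, pow_succ, mul_comm]
  refine Nat.mul_le_mul (Nat.pow_le_pow_left ?_ _) ?_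
  · have : (g * β * β + 4 * (g * β * (g * β)) + 3) * z ^ 2 = g * β * β * z ^ 2 +
      4 * (g * (β * z) * (g * (β * z))) + 3 * z ^ 2 := by ring
    omega
  · have : (g * β * β + 4 * (g * β * (g * β)) + 3) * z ^ 2 = β * z * (g * (β * z)) +
      4 * (g * β * (g * β)) * z ^ 2 + 3 * z ^ 2 := by ring
    omega

theorem half_pow {Q : ℕ} (hQ : 1 ≤ Q) (t : ℕ) : (Q - 1) ^ (Q * t) * 2 ^ t ≤ Q ^ (Q * t) := by
  obtain ⟨x, rfl⟩ := Nat.exists_eq_add_of_le' hQ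
  rw [Nat.add_sub_cancel, pow_mul, pow_mul, ← mul_pow]
  refine Nat.pow_le_pow_left ?_ t
  have : ∀ j, x ^ (j + 1) + (j + 1) * x ^ j ≤ (x + 1) ^ (j + 1) := by
    intro j
    induction j with
    | zero => simp
    | succ j ih =>
      have := Nat.mul_le_mul_right (x + 1) ih
      rw [pow_succ (x + 1) (j + 1), pow_succ x (j + 1), pow_succ x j] at *
      nlinarith [Nat.zero_le (x ^ j), Nat.zero_le (j * x ^ j)]
  have h := this x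
  rw [pow_succ x x] at *
  nlinarith [Nat.zero_le (x ^ x)]

theorem sizes {c f y Y N n m M b : ℕ} (hy : 5 ≤ y) (hY : y * y ≤ Y) (hf : f ≤ y) (hN : N ≤ Y)
    (hS : n + m + M ≤ f * N ^ c) (hb : b ≤ y) :
    m * (2 * M + 1) ≤ Y ^ (c + 1) * Y ^ (c + 1) * (y * y) ∧
      M + 1 ≤ Y ^ (c + 1) * Y ^ (c + 1) * (y * y) ∧ N * N + n ≤ Y ^ (2 * c + 3) ∧
      b * (m * (2 * M + 2)) + 1 ≤ Y ^ (2 * c + 3) ∧ (n + 1) * Y ^ (2 * c + 3) ≤ Y ^ (3 * c + 5) := by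
  have h1 : 5 * y ≤ Y := le_trans (Nat.mul_le_mul_right _ hy) hY
  have hX : f * N ^ c ≤ Y ^ (c + 1) := by
    rw [pow_succ']; exact Nat.mul_le_mul (by omega) (Nat.pow_le_pow_left hN c)
  have h2 : Y ≤ Y ^ (c + 1) := Nat.le_self_pow (by omega) _
  have e1 : Y ^ (2 * c + 3) = Y ^ (c + 1) * Y ^ (c + 1) * Y := by ring
  have e2 : Y ^ (3 * c + 5) = Y ^ (c + 1) * Y * Y ^ (2 * c + 3) := by ring
  rw [e2, e1]
  generalize Y ^ (c + 1) = X at *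
  have hyy : 25 ≤ y * y := Nat.mul_le_mul hy hy
  have hXX : X ≤ X * X := Nat.le_mul_of_pos_left _ (by omega)
  have h3 : X * X * 25 ≤ X * X * (y * y) := Nat.mul_le_mul_left _ hyy
  have h4 : X * X * (5 * y) ≤ X * X * Y := Nat.mul_le_mul_left _ h1
  have h5 : X * X * 1 ≤ X * X * y := Nat.mul_le_mul_left _ (by omega)
  refine ⟨?_, by omega, ?_, ?_, Nat.mul_le_mul_right _ ?_⟩
  · have : m * (2 * M + 1) ≤ X * (3 * X) := Nat.mul_le_mul (by omega) (by omega)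
    nlinarith
  · have : N * N ≤ X * X := Nat.mul_le_mul (by omega) (by omega)
    nlinarith
  · have : b * (m * (2 * M + 2)) ≤ y * (X * (4 * X)) :=
      Nat.mul_le_mul hb (Nat.mul_le_mul (by omega) (by omega))
    nlinarith
  · have : X * 2 ≤ X * Y := Nat.mul_le_mul_left _ (by omega)
    omega

theorem pos_ok {y l k e a μ : ℕ} (hy : 3 ≤ y) (hl : l + 1 ≤ k) (he : e ≤ y ^ l) (ha : a ≤ y)
    (hμ : μ ≤ y) : e * (a ^ (l + 1) * (y ^ 2) ^ (k - (l + 1))) + μ * (y ^ 2) ^ (k - 1) <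
      (y ^ 2) ^ k := by
  obtain ⟨j, rfl⟩ := Nat.exists_eq_add_of_le hl
  rw [Nat.add_sub_cancel_left, show l + 1 + j - 1 = l + j by omega]
  have h1 : e * (a ^ (l + 1) * (y ^ 2) ^ j) ≤ y * (y ^ 2) ^ (l + j) :=
    (Nat.mul_le_mul he (Nat.mul_le_mul_right _ (Nat.pow_le_pow_left ha _))).trans
      (le_of_eq (by ring))
  have h2 := Nat.mul_le_mul_right ((y ^ 2) ^ (l + j)) hμ
  have h3 : (y ^ 2) ^ (l + 1 + j) = y * (y * (y ^ 2) ^ (l + j)) := by ring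
  have h4 : 0 < y * (y ^ 2) ^ (l + j) := by positivity
  rw [h3]
  generalize y * (y ^ 2) ^ (l + j) = Z at *
  nlinarith

theorem neg_ok {z l k e Q A : ℕ} (hQ : 1 ≤ Q) (hA : 0 < A) (hk : k + 1 ≤ 2 ^ z)
    (he : e ≤ (2 ^ z) ^ l) : e * ((Q - 1) ^ (Q * (4 * l * z + 1)) * A / Q ^ (Q * (4 * l * z + 1)) *
      (k * (2 ^ z) ^ 2 + 1) ^ l) < A := by
  have h1 := half_pow hQ (4 * l * z + 1)
  have h2 := Nat.div_mul_le_self ((Q - 1) ^ (Q * (4 * l * z + 1)) * A) (Q ^ (Q * (4 * l * z + 1)))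
  have h3 : 0 < Q ^ (Q * (4 * l * z + 1)) := Nat.pow_pos hQ
  generalize (Q - 1) ^ (Q * (4 * l * z + 1)) * A / Q ^ (Q * (4 * l * z + 1)) = η at *
  have h4 : η * 2 ^ (4 * l * z + 1) ≤ A := Nat.le_of_mul_le_mul_right (by
    calc _ = η * Q ^ (Q * (4 * l * z + 1)) * 2 ^ (4 * l * z + 1) := by ring
      _ ≤ (Q - 1) ^ (Q * (4 * l * z + 1)) * A * 2 ^ (4 * l * z + 1) := Nat.mul_le_mul_right _ h2
      _ = A * ((Q - 1) ^ (Q * (4 * l * z + 1)) * 2 ^ (4 * l * z + 1)) := by ring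
      _ ≤ _ := Nat.mul_le_mul_left _ h1) h3
  have h5 : k * (2 ^ z) ^ 2 + 1 ≤ (2 ^ z) ^ 3 := by
    have := Nat.mul_le_mul_right ((2 ^ z) ^ 2) hk
    have : 0 < (2 ^ z) ^ 2 := by positivity
    rw [pow_succ' _ 2]
    nlinarith
  have h6 := Nat.mul_le_mul he (Nat.mul_le_mul_left η (Nat.pow_le_pow_left h5 l))
  have h7 : η * 2 ^ (4 * l * z + 1) = (2 ^ z) ^ l * (η * ((2 ^ z) ^ 3) ^ l) * 2 := by
    rw [show 4 * l * z = z * (4 * l) by ring, pow_succ, pow_mul]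
    generalize 2 ^ z = y
    ring
  omega

theorem blocks_ok {σ s E y N L a K : ℕ} (hs : s = 4 * σ) (hE : E = s ^ 2 + 2 * s + 2) (hσ : 1 ≤ σ)
    (hN : N ≤ K * y ^ E) (hK : (s + 1) ^ σ * K ^ (2 * σ - 1) < y)
    (hL : (y ^ (s + 2)) ^ s * (y ^ s) ^ s ≤ L * (s * (y ^ s) ^ 2 + 1))
    (ha : a ^ σ ≤ N ^ (2 * σ - 1)) : a ≤ L := by
  by_contra hc
  have hy : 0 < y := by omega
  have h0 : 0 < (y ^ s) ^ 2 := by positivity
  have h1 : y ^ (2 * s ^ 2) ≤ a * (s + 1) := Nat.le_of_mul_le_mul_right (by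
    calc y ^ (2 * s ^ 2) * (y ^ s) ^ 2 = (y ^ (s + 2)) ^ s * (y ^ s) ^ s := by ring
      _ ≤ a * ((s + 1) * (y ^ s) ^ 2) :=
        hL.trans (Nat.mul_le_mul (by omega) (by rw [add_mul]; omega))
      _ = _ := by ring) h0
  have h2 := Nat.pow_le_pow_left h1 σ
  rw [mul_pow, ← pow_mul] at h2
  have h3 := ha.trans (Nat.pow_le_pow_left hN _)
  rw [mul_pow, ← pow_mul] at h3
  have h4 : y ^ (E * (2 * σ - 1) + 1) ≤ y ^ (2 * s ^ 2 * σ) := Nat.pow_le_pow_right hy (by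
    obtain ⟨x, rfl⟩ := Nat.exists_eq_add_of_le' hσ
    rw [hE, hs, show 2 * (x + 1) - 1 = 2 * x + 1 by omega]
    ring_nf
    omega)
  have h5 := Nat.mul_lt_mul_of_pos_left (k := y ^ (E * (2 * σ - 1))) hK
  have h6 := Nat.mul_le_mul_right ((s + 1) ^ σ) h3
  rw [pow_succ] at h4
  have h7 : 0 < y ^ (E * (2 * σ - 1)) := by positivity
  have h8 := h5 h7
  nlinarith

theorem main (σ c k : ℕ) (hσ : 1 ≤ σ) (hk : 140 * σ ^ 2 * (c + 1) ≤ k) (d g f : ℕ) :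
    ∃ N₀ : ℕ, ∀ N ≥ N₀, ∀ C : Circuit (Fin N × Fin N), C.n + C.m + C.M ≤ f * N ^ c →
      (2 ^ C.negs) ^ σ ≤ N ^ (2 * σ - 1) → ¬ C.Decides k d g := by
  obtain ⟨s, hs⟩ : ∃ s, s = 4 * σ := ⟨_, rfl⟩
  obtain ⟨E, hE⟩ : ∃ E, E = s ^ 2 + 2 * s + 2 := ⟨_, rfl⟩
  obtain ⟨l, hl⟩ : ∃ l, l = (E + 1) * (3 * c + 5) := ⟨_, rfl⟩
  obtain ⟨κ, hκ⟩ : ∃ κ, κ = k * (k + 1) ^ s := ⟨_, rfl⟩
  obtain ⟨β, hβ⟩ : ∃ β, β = 2 * (E + 1) * (c + 1) + 2 := ⟨_, rfl⟩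
  obtain ⟨K, hK⟩ : ∃ K, K = (g * β * β + 4 * (g * β * (g * β)) + 3) ^ (d + 1) := ⟨_, rfl⟩
  have hl0 : 5 ≤ l := hl ▸ le_trans (by omega) (Nat.le_mul_of_pos_left _ (Nat.succ_pos E))
  have hlk : l + 1 ≤ k := by
    have h1 : E + 1 ≤ 27 * σ ^ 2 := by rw [hE, hs]; nlinarith
    have h2 := Nat.mul_le_mul h1 (show 3 * c + 5 ≤ 5 * (c + 1) by omega)
    have h3 : 0 < σ ^ 2 * (c + 1) := by positivity
    nlinarith
  obtain ⟨q, rfl⟩ : ∃ q, k = q + 1 := ⟨k - 1, by omega⟩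
  have hQ : 1 ≤ q ^ l := Nat.one_le_pow _ _ (by omega)
  have ev : ∀ a : ℕ, ∀ᶠ z : ℕ in atTop, a ≤ 2 ^ z := fun a => by simpa using ev_poly a 0
  obtain ⟨z0, hz0⟩ := eventually_atTop.mp ((eventually_ge_atTop 1).and ((ev 5).and
    ((ev_poly ((K + 2) * (l * (q ^ l * (4 * l + 1))) ^ l) (2 * (d + 1) + l)).and
    ((ev (q + 1 + 1)).and ((ev (κ * 2 ^ E)).and ((ev f).and
    (ev ((s + 1) ^ σ * (κ * 2 ^ E) ^ (2 * σ - 1) + 1))))))))
  refine ⟨κ * (2 ^ E) ^ z0, fun N hN C hS hn hC => ?_⟩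
  have hκ0 : 0 < κ := by rw [hκ]; positivity
  have h1 : (2 ^ E) ^ z0 ≤ N / κ := (Nat.le_div_iff_mul_le hκ0).mpr (by rw [mul_comm]; exact hN)
  have hb : 1 < 2 ^ E := Nat.one_lt_two_pow (by omega)
  obtain ⟨z, hz1, hz2⟩ := exists_nat_pow_near (x := N / κ) (y := 2 ^ E)
    (le_trans (Nat.one_le_pow _ _ (by omega)) h1) hb
  have hzz : z0 ≤ z := by
    have := (pow_lt_pow_iff_right₀ hb).mp (h1.trans_lt hz2)
    omega
  obtain ⟨c1, c2, c3, c4, c5, c6, c7⟩ := hz0 z hzz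
  have e1 : (2 ^ E) ^ z = (2 ^ z) ^ E := by rw [← pow_mul, ← pow_mul, mul_comm]
  have hN1 : κ * (2 ^ z) ^ E ≤ N := by
    rw [← e1, mul_comm]; exact (Nat.le_div_iff_mul_le hκ0).mp hz1
  have hN2 : N ≤ κ * 2 ^ E * (2 ^ z) ^ E := by
    have := (Nat.div_lt_iff_lt_mul hκ0).mp hz2
    rw [pow_succ, e1] at this
    exact this.le.trans (le_of_eq (by ring))
  have hN3 : N ≤ (2 ^ z) ^ (E + 1) := by
    rw [pow_succ']; exact hN2.trans (Nat.mul_le_mul_right _ c5)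
  obtain ⟨L, pt, hp, hL⟩ := exists_packing (q + 1) ((2 ^ z) ^ 2) s ((2 ^ z) ^ (s + 2))
    ((2 ^ z) ^ s) N (le_trans (le_of_eq (by
      rw [hκ, hE]
      generalize 2 ^ z = y
      rw [show y ^ (s + 2) + (q + 1) * y ^ 2 * y ^ s = (q + 1 + 1) * y ^ (s + 2) by ring, mul_pow]
      ring)) hN1)
  obtain ⟨b, hb⟩ : ∃ b, b = (β * z * (g * (β * z)) + 1) *
    (2 * (2 * (g * (β * z) * (g * (β * z))) + 1) + 1) ^ d + 2 := ⟨_, rfl⟩
  have hbμ : b * (l * (q ^ l * (4 * l * z + 1))) ^ l ≤ 2 ^ z := by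
    refine le_trans ?_ c3
    have a1 := m0_le (g := g) (β := β) (d := d) c1
    have a2 : 1 ≤ z ^ (2 * (d + 1)) := Nat.one_le_pow _ _ c1
    have a3 : b ≤ (K + 2) * z ^ (2 * (d + 1)) := by
      rw [hb, add_mul K, hK]
      exact add_le_add a1 (by omega)
    have a4 : l * (q ^ l * (4 * l * z + 1)) ≤ l * (q ^ l * (4 * l + 1)) * z := by
      rw [mul_assoc l, mul_assoc (q ^ l), add_mul]
      exact Nat.mul_le_mul_left _ (Nat.mul_le_mul_left _ (by omega))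
    refine (Nat.mul_le_mul a3 (Nat.pow_le_pow_left a4 l)).trans (le_of_eq ?_)
    rw [mul_pow _ z, pow_add z]
    ring
  have hμ : 0 < (l * (q ^ l * (4 * l * z + 1))) ^ l := by positivity
  obtain ⟨s1, s2, s3, s4, s5⟩ := sizes (Y := (2 ^ z) ^ (E + 1)) c2 (by
    rw [← sq]; exact Nat.pow_le_pow_right (by omega) (by omega)) c6 hN3 hS
    (le_trans (Nat.le_mul_of_pos_right b hμ) hbμ)
  have e2 : ((2 ^ z) ^ (E + 1)) ^ (c + 1) * ((2 ^ z) ^ (E + 1)) ^ (c + 1) * (2 ^ z * 2 ^ z) =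
      2 ^ (β * z) := by
    rw [hβ, mul_comm _ z, pow_mul]
    generalize 2 ^ z = y
    ring
  rw [e2] at s1 s2
  rw [← pow_mul _ _ (3 * c + 5), ← hl] at s5
  exact core ⟨q + 1, (2 ^ z) ^ 2, q, l, q ^ l * (4 * l * z + 1), b, _, by positivity, by omega,
      by positivity, by omega, by omega, fun x hx =>
        (Nat.le_div_iff_mul_le (by positivity)).mpr hx⟩ C hp (show 2 ≤ q by omega) rfl
    (blocks_ok hs hE hσ hN2 c7 hL hn) hC s1 (Nat.lt_succ_self _)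
    (r := β * z * (g * (β * z)) + 1) (by
      refine (Nat.pow_le_pow_left s2 _).trans_lt ?_
      rw [← pow_mul]
      exact Nat.pow_lt_pow_right (by norm_num) (Nat.lt_succ_self _))
    (show _ ≤ b from hb ▸ Nat.le_add_right _ _) s3 s4
    (pos_ok (by omega) hlk s5 hbμ (le_trans (Nat.le_mul_of_pos_left _ (by omega)) hbμ))
    (neg_ok hQ (Nat.pow_pos (show 0 < q by omega)) c4 s5)

end Pool.Agent.Lib.MP_ddf912_lc.Neg
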