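import Pool.Agent.Lib.MP_ddf912_lc.AC.Hash
import Pool.Agent.Lib.MP_ddf912_lc.Neg.Apx
import Pool.Agent.Lib.MP_ddf912_lc.Neg.Chain

/-! Simulation of the gates by approximators. -/

set_option autoImplicit false

namespace Pool.Agent.Lib.MP_ddf912_lc.Neg

open Finset Classical Par
open AC (Sat vars sat_hash)

variable {ι : Type} {C : Circuit ι}

def Hit {M H d : ℕ} (φ : Finset (Finset (Fin M × Bool))) (h : Fin M → Fin H)
    (κ : Fin d → Option (Fin H × Bool)) : Prop :=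
  ∃ c ∈ φ, ∀ l ∈ c, ∃ i, κ i = some (h l.1, l.2)

theorem sat_of_hit {M H v r d : ℕ} {h : Fin r → Fin M → Fin H}
    (hh : ∀ A : Finset (Fin M), A.card ≤ v → ∃ t, Set.InjOn (h t) A)
    {φ ψ : Finset (Finset (Fin M × Bool))} (h1 : (∀ c ∈ φ, c.card ≤ d) ∧ (vars φ).card ≤ v)
    (h2 : (∀ c ∈ ψ, c.card ≤ d) ∧ (vars ψ).card ≤ v)
    (e : ∀ t (κ : Fin d → Option (Fin H × Bool)), Hit ψ (h t) κ → Hit φ (h t) κ) :
    Sat φ → Sat ψ := by
  rw [sat_hash hh φ h1.1 h1.2, sat_hash hh ψ h2.1 h2.2]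
  exact fun ⟨t, θ, hθ⟩ => ⟨t, θ, fun κ hκ => hθ κ (e t κ hκ)⟩

/-- The slot wire and the wires of the literals hashed outside `κ`. -/
noncomputable def Out {M H d : ℕ} (h : Fin M → Fin H) (κ : Fin d → Option (Fin H × Bool)) :
    Finset (Option (Fin M × Bool)) :=
  univ.filter fun o => ∀ l, o = some l → ¬ ∃ i, κ i = some (h l.1, l.2)

def wire (C : Circuit ι) (i : Fin C.n) (a : Fin C.m) : Option (Fin C.M × Bool) → ι ⊕ Fin C.n
  | none => C.used i a
  | some l => C.lit i a l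

theorem rank_wire {i : Fin C.n} (hk : C.kind i = Gate.sat ∨ C.kind i = Gate.unsat) (a : Fin C.m)
    (o : Option (Fin C.M × Bool)) : rank C (wire C i a o) ≤ i.val := by
  cases o with
  | none => exact rank_le fun j => C.used_lt i a j hk
  | some l => exact rank_le fun j => C.lit_lt i a l j hk

theorem hit_iff {H d : ℕ} (w : ι ⊕ Fin C.n → Prop) {i : Fin C.n}
    (hk : C.kind i = Gate.sat ∨ C.kind i = Gate.unsat) (h : Fin C.M → Fin H)
    (κ : Fin d → Option (Fin H × Bool)) : Hit (C.cnf w i) h κ ↔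
      ∃ a, ∀ o ∈ Out h κ, (w (wire C i a o) ↔ C.kind i = Gate.unsat) := by
  have e : C.kind i = Gate.sat ↔ ¬ C.kind i = Gate.unsat := by
    rcases hk with e | e <;> simp [e]
  constructor
  · rintro ⟨c, hc, h1⟩
    obtain ⟨a, h2, h3⟩ := mem_cnf.mp hc
    refine ⟨a, fun o ho => ?_⟩
    cases o with
    | none => exact h2
    | some l =>
      have h4 := fun e' => (mem_filter.mp ho).2 l rfl (h1 l ((h3 l).mpr e'))
      change w (C.lit i a l) ↔ _
      tauto
  · rintro ⟨a, ha⟩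
    obtain ⟨c, h1, h2⟩ := cnf_slot (ha none (mem_filter.mpr ⟨mem_univ _, by simp⟩))
    refine ⟨c, h1, fun l hl => ?_⟩
    by_contra hc
    have h3 : w (C.lit i a l) ↔ _ := ha (some l) (mem_filter.mpr ⟨mem_univ _, fun l' e => by
      rw [← Option.some.inj e]; exact hc⟩)
    have h4 := (h2 l).mp hl
    tauto

variable {P : Par}

/-- No negation gate below `j` has a value different from the base value. -/
def NF (C : Circuit ι) (w w0 : ι ⊕ Fin C.n → Prop) (j : ℕ) : Prop :=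
  ∀ i : Fin C.n, i.val < j → C.kind i = Gate.nor → (w (Sum.inr i) ↔ w0 (Sum.inr i))

theorem NF.mono {w w0 : ι ⊕ Fin C.n → Prop} {j j' : ℕ} (h : NF C w w0 j) (hj : j' ≤ j) :
    NF C w w0 j' := fun i hi => h i (by omega)

theorem sim_gate {H v r d cg : ℕ} [Fintype ι] {h : Fin r → Fin C.M → Fin H}
    (hh : ∀ A : Finset (Fin C.M), A.card ≤ v → ∃ t, Set.InjOn (h t) A)
    (hb : r * (2 * H + 1) ^ d ≤ P.b) (c1 : Fintype.card ι + C.n ≤ cg)
    (c2 : P.b * (C.m * (2 * C.M + 2)) + 1 ≤ cg)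
    {W : P.T → ι ⊕ Fin C.n → Prop} {w0 : ι ⊕ Fin C.n → Prop}
    (hW : ∀ t i, W t (Sum.inr i) ↔ C.gateVal (W t) i)
    (hp : ∀ t i, C.kind i = Gate.sat ∨ C.kind i = Gate.unsat →
      (∀ c ∈ C.cnf (W t) i, c.card ≤ d) ∧ (vars (C.cnf (W t) i)).card ≤ v)
    (hn : ∀ χ j, NF C (W (Sum.inr χ)) w0 j) (B : Finset P.T) (i : Fin C.n)
    (hB : ∀ u, rank C u ≤ i.val → Apx B fun t => W t u ∧ NF C (W t) w0 (rank C u)) :
    Nx cg B fun t => W t (Sum.inr i) ∧ NF C (W t) w0 (i.val + 1) := by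
  have hc : (C.ins i).card * (0 + 1) ≤ cg := by
    have := card_le_univ (C.ins i)
    rw [Fintype.card_sum, Fintype.card_fin] at this
    omega
  have hO : ∀ (t : Fin r) (κ : Fin d → Option (Fin H × Bool)),
      (Out (h t) κ).card * (0 + 1) + 1 ≤ 2 * C.M + 2 := fun t κ => by
    have := card_le_univ (Out (h t) κ)
    simp only [Fintype.card_option, Fintype.card_prod, Fintype.card_fin, Fintype.card_bool] at this
    omega
  have hS : (univ : Finset (Fin r × (Fin d → Option (Fin H × Bool)))).card ≤ P.b := by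
    simpa [mul_comm] using hb
  have hcost : (univ : Finset (Fin r × (Fin d → Option (Fin H × Bool)))).card *
      (C.m * (2 * C.M + 2)) + 1 ≤ cg :=
    le_trans (Nat.succ_le_succ (Nat.mul_le_mul_right _ hS)) c2
  cases e : C.kind i with
  | conj =>
    refine ((nx_and (C.ins i) fun u hu => (hB u (rank_ins hu)).nx).mono hc).weak
      (fun a ha u hu => ⟨?_, ha.2.mono ((rank_ins hu).trans (Nat.le_succ _))⟩)
      fun χ hχ => ⟨?_, hn _ _⟩
    · have := (hW _ i).mp ha.1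
      simp only [Circuit.gateVal, e] at this
      exact this u hu
    · rw [hW]
      simp only [Circuit.gateVal, e]
      exact fun u hu => (hχ u hu).1
  | disj =>
    refine ((nx_or (C.ins i) fun u hu => (hB u (rank_ins hu)).nx).mono hc).weak
      (fun a ha => ?_) fun χ ⟨u, hu, hχ⟩ => ⟨?_, hn _ _⟩
    · have := (hW _ i).mp ha.1
      simp only [Circuit.gateVal, e] at this
      obtain ⟨u, hu, h1⟩ := this
      exact ⟨u, hu, h1, ha.2.mono ((rank_ins hu).trans (Nat.le_succ _))⟩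
    · rw [hW]
      simp only [Circuit.gateVal, e]
      exact ⟨u, hu, hχ.1⟩
  | nor =>
    by_cases h0 : w0 (Sum.inr i)
    · exact (apx_always B fun χ =>
        ⟨(hn χ _ i (Nat.lt_succ_self _) e).mpr h0, hn _ _⟩).nx.mono (Nat.zero_le _)
    · exact (apx_never B fun a ha =>
        h0 ((ha.2 i (Nat.lt_succ_self _) e).mp ha.1)).nx.mono (Nat.zero_le _)
  | sat =>
    have hk : C.kind i = Gate.sat ∨ C.kind i = Gate.unsat := Or.inl e
    refine (nx_dom (c := C.m * (2 * C.M + 2)) (f := fun z t => ∀ a ∈ (univ : Finset (Fin C.m)),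
      ∃ o ∈ Out (h z.1) z.2, W t (wire C i a o) ∧ NF C (W t) w0 (rank C (wire C i a o))) hS
      (fun z _ => (nx_and (c := (Out (h z.1) z.2).card * (0 + 1)) univ fun a _ =>
        nx_or _ fun o _ => (hB _ (rank_wire hk a o)).nx).mono ?_) fun a χ h1 h2 =>
        ⟨?_, hn _ _⟩).mono hcost
    · rw [card_univ, Fintype.card_fin]
      exact Nat.mul_le_mul_left _ (hO _ _)
    · have h3 := (hW _ i).mp h2.1
      rw [hW]
      simp only [Circuit.gateVal, e] at h3 ⊢
      refine sat_of_hit hh (hp _ i hk) (hp _ i hk) (fun t κ h4 => ?_) h3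
      rw [hit_iff _ hk] at h4 ⊢
      simp only [e, reduceCtorEq, iff_false] at h4 ⊢
      by_contra h5
      push Not at h5
      obtain ⟨s, hs⟩ := h4
      obtain ⟨o, h6, h7⟩ := h1 (t, κ) (mem_univ _) (fun s _ => by
        obtain ⟨o, h6, h7⟩ := h5 s
        exact ⟨o, h6, h7, h2.2.mono ((rank_wire hk s o).trans (Nat.le_succ _))⟩) s (mem_univ _)
      exact hs o h6 h7.1
  | unsat =>
    have hk : C.kind i = Gate.sat ∨ C.kind i = Gate.unsat := Or.inr e
    refine (nx_dom (c := C.m * (2 * C.M + 2)) (f := fun z t => ∃ a ∈ (univ : Finset (Fin C.m)),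
      ∀ o ∈ Out (h z.1) z.2, W t (wire C i a o) ∧ NF C (W t) w0 (rank C (wire C i a o))) hS
      (fun z _ => (nx_or (c := (Out (h z.1) z.2).card * (0 + 1)) univ fun a _ =>
        nx_and _ fun o _ => (hB _ (rank_wire hk a o)).nx).mono ?_) fun a χ h1 h2 =>
        ⟨?_, hn _ _⟩).mono hcost
    · rw [card_univ, Fintype.card_fin]
      exact Nat.mul_le_mul_left _ (hO _ _)
    · have h3 := (hW _ i).mp h2.1
      rw [hW]
      simp only [Circuit.gateVal, e] at h3 ⊢
      refine fun h8 => h3 (sat_of_hit hh (hp _ i hk) (hp _ i hk) (fun t κ h4 => ?_) h8)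
      rw [hit_iff _ hk] at h4 ⊢
      simp only [e, iff_true] at h4 ⊢
      obtain ⟨s, hs⟩ := h4
      obtain ⟨s', -, h6⟩ := h1 (t, κ) (mem_univ _) ⟨s, mem_univ _, fun o ho =>
        ⟨hs o ho, h2.2.mono ((rank_wire hk s o).trans (Nat.le_succ _))⟩⟩
      exact ⟨s', fun o ho => (h6 o ho).1⟩

theorem sim {H v r d cg : ℕ} [Fintype ι] {h : Fin r → Fin C.M → Fin H}
    (hh : ∀ A : Finset (Fin C.M), A.card ≤ v → ∃ t, Set.InjOn (h t) A)
    (hb : r * (2 * H + 1) ^ d ≤ P.b) (c1 : Fintype.card ι + C.n ≤ cg)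
    (c2 : P.b * (C.m * (2 * C.M + 2)) + 1 ≤ cg)
    {W : P.T → ι ⊕ Fin C.n → Prop} {w0 : ι ⊕ Fin C.n → Prop}
    (hW : ∀ t i, W t (Sum.inr i) ↔ C.gateVal (W t) i)
    (h0 : ∀ i, w0 (Sum.inr i) ↔ C.gateVal w0 i)
    (hp : ∀ t i, C.kind i = Gate.sat ∨ C.kind i = Gate.unsat →
      (∀ c ∈ C.cnf (W t) i, c.card ≤ d) ∧ (vars (C.cnf (W t) i)).card ≤ v)
    (hn : ∀ χ j, NF C (W (Sum.inr χ)) w0 j) (hle : ∀ t x, w0 (Sum.inl x) → W t (Sum.inl x))
    (hin : ∀ x, Apx ∅ fun t => W t (Sum.inl x)) (o1 : ∀ a, W (Sum.inl a) (Sum.inr C.out))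
    (o2 : ∀ χ, ¬ W (Sum.inr χ) (Sum.inr C.out))
    (h3 : (C.n + 1) * cg * P.εp + P.μ * P.n ^ (P.k - 1) < P.n ^ P.k)
    (h4 : (C.n + 1) * cg * P.εn < P.q ^ (P.k * P.n)) : False := by
  have key : ∀ j, j ≤ C.n → ∃ B, Sm (j * cg) B ∧
      ∀ u, rank C u ≤ j → Apx B fun t => W t u ∧ NF C (W t) w0 (rank C u) := by
    intro j
    induction j with
    | zero =>
      refine fun _ => ⟨∅, Sm.empty _, ?_⟩
      rintro (x | i) hu
      · simpa [NF, rank] using hin x
      · exact absurd hu (by simp [rank])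
    | succ j ih =>
      intro hj
      obtain ⟨B, e1, e2⟩ := ih (by omega)
      obtain ⟨D, e3, e4⟩ := sim_gate hh hb c1 c2 hW hp hn B ⟨j, hj⟩ e2
      refine ⟨B ∪ D, by rw [add_mul, one_mul]; exact e1.union e3, fun u hu => ?_⟩
      by_cases e : rank C u ≤ j
      · exact (e2 u e).mono subset_union_left
      · cases u with
        | inl x => exact absurd (Nat.zero_le _) e
        | inr i =>
          have : i = ⟨j, hj⟩ := Fin.ext (by simp only [rank] at e hu ⊢; omega)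
          rw [this]
          exact e4
  obtain ⟨B, e1, e2⟩ := key _ le_rfl
  have hr : ∀ u, rank C u ≤ C.n := by
    rintro (x | i)
    · exact Nat.zero_le _
    · exact i.2
  obtain ⟨D, e3, e4⟩ := nx_or (univ.filter fun u => ∀ χ, ¬ W (Sum.inr χ) u)
    fun u _ => (e2 u (hr u)).nx
  refine no_sep ((e1.union e3).mono ?_) e4 (fun a => ?_) (fun χ ⟨u, hu, h5⟩ =>
    (mem_filter.mp hu).2 χ h5.1) h3 h4
  · have := card_le_univ (univ.filter fun u : ι ⊕ Fin C.n => ∀ χ, ¬ W (Sum.inr χ) u)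
    rw [Fintype.card_sum, Fintype.card_fin] at this
    rw [add_mul C.n]
    omega
  · by_cases h5 : NF C (W (Sum.inl a)) w0 C.n
    · exact ⟨Sum.inr C.out, mem_filter.mpr ⟨mem_univ _, o2⟩, o1 a, h5.mono (hr _)⟩
    · obtain ⟨i, hi, hm⟩ := exists_min_image (univ.filter fun i : Fin C.n => C.kind i = Gate.nor ∧
        ¬ (W (Sum.inl a) (Sum.inr i) ↔ w0 (Sum.inr i))) Fin.val (by
          simp only [NF, not_forall] at h5
          obtain ⟨i, -, e5, e6⟩ := h5
          exact ⟨i, mem_filter.mpr ⟨mem_univ _, e5, e6⟩⟩)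
      obtain ⟨e5, e6⟩ := (mem_filter.mp hi).2
      have e7 : NF C (W (Sum.inl a)) w0 i.val := fun j hj hk => by
        by_contra hc
        have := hm j (mem_filter.mpr ⟨mem_univ _, hk, hc⟩)
        omega
      have e8 := nor_anti h0 (hW (Sum.inl a)) (hle _) e5 fun j hj hk => (e7 j hj hk).mpr
      have e9 : w0 (Sum.inr i) := by tauto
      have e10 : ¬ W (Sum.inl a) (Sum.inr i) := by tauto
      rw [hW] at e10
      simp only [Circuit.gateVal, e5, not_forall, not_not] at e10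
      obtain ⟨u, hu, e11⟩ := e10
      refine ⟨u, mem_filter.mpr ⟨mem_univ _, fun χ => ?_⟩, e11, e7.mono (rank_ins hu)⟩
      have := (hW _ i).mp ((hn χ _ i (Nat.lt_succ_self _) e5).mpr e9)
      simp only [Circuit.gateVal, e5] at this
      exact this u hu

theorem vars_le (w : ι ⊕ Fin C.n → Prop) (i : Fin C.n) {g B : ℕ}
    (hB : C.m * (2 * C.M + 1) ≤ 2 ^ B)
    (h : ⌈((vars (C.cnf w i)).card : ℝ) / Real.logb 2 (C.m * (2 * C.M + 1) : ℕ)⌉₊ ≤ g) :
    (vars (C.cnf w i)).card ≤ g * B := by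
  by_cases h1 : 1 < C.m * (2 * C.M + 1)
  · have h2 : 0 < Real.logb 2 (C.m * (2 * C.M + 1) : ℕ) :=
      Real.logb_pos (by norm_num) (by exact_mod_cast h1)
    have h3 : Real.logb 2 (C.m * (2 * C.M + 1) : ℕ) ≤ B := by
      rw [Real.logb_le_iff_le_rpow (by norm_num) (by exact_mod_cast (by omega)), Real.rpow_natCast]
      exact_mod_cast hB
    have h4 := Nat.ceil_le.mp h
    rw [div_le_iff₀ h2] at h4
    have h5 := h4.trans (mul_le_mul_of_nonneg_left h3 (Nat.cast_nonneg g))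
    exact_mod_cast h5
  · have : vars (C.cnf w i) = ∅ := by
      rw [eq_empty_iff_forall_notMem]
      intro x hx
      obtain ⟨c, hc, -⟩ := mem_biUnion.mp hx
      obtain ⟨a, -, -⟩ := mem_image.mp hc
      have := a.2
      have := x.2
      apply h1
      nlinarith
    simp [this]

end Pool.Agent.Lib.MP_ddf912_lc.Neg
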