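import Mathlib

/-! Closed families of small vertex sets, sunflowers. -/

set_option autoImplicit false

namespace Pool.Agent.Lib.MP_ddf912_lc.Neg

open Finset Classical

theorem fiber_card {α β : Type} [Fintype α] [Fintype β] (Z : Finset α) (f0 : α → β)
    (A : Finset (α → β)) (h : ∀ f ∈ A, ∀ u, u ∉ Z → f u = f0 u) :
    A.card ≤ Fintype.card β ^ Z.card := by
  have := card_le_card_of_injOn (s := A) (t := (univ : Finset (Z → β)))
    (fun f u => f u.1) (fun _ _ => mem_univ _) (fun f hf f' hf' e => funext fun u => by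
      by_cases hu : u ∈ Z
      · exact congrFun e ⟨u, hu⟩
      · rw [h f hf u hu, h f' hf' u hu])
  simpa using this

variable {U : Type} [Fintype U] {q : ℕ}

omit [Fintype U] in
theorem exists_ext {Y : Finset U} {χ : U → Fin q} (h : Set.InjOn χ Y) (Z : Finset U) :
    (Y ∪ Z).card ≤ q → Disjoint Y Z →
      ∃ χ' : U → Fin q, Set.InjOn χ' ((Y ∪ Z : Finset U) : Set U) ∧ ∀ u, u ∉ Z → χ' u = χ u := by
  induction Z using Finset.induction_on with
  | empty => exact fun _ _ => ⟨χ, by simpa using h, fun _ _ => rfl⟩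
  | insert v Z hv ih =>
    intro hc hd
    rw [disjoint_insert_right] at hd
    have hv' : v ∉ Y ∪ Z := by simp [hv, hd.1]
    rw [union_insert, card_insert_of_notMem hv'] at hc
    obtain ⟨χ1, h1, h2⟩ := ih (by omega) hd.2
    obtain ⟨x, -, hx⟩ := exists_mem_notMem_of_card_lt_card (s := (Y ∪ Z).image χ1)
      (t := (univ : Finset (Fin q))) (card_image_le.trans_lt (by simpa using hc))
    have e : ∀ u ∈ Y ∪ Z, Function.update χ1 v x u = χ1 u := fun u hu =>
      Function.update_of_ne (fun e : u = v => hv' (e ▸ hu)) _ _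
    refine ⟨Function.update χ1 v x, ?_, fun u hu => ?_⟩
    · rw [union_insert]
      intro a ha b hb hab
      rcases mem_insert.mp (mem_coe.mp ha) with ea | ha' <;>
        rcases mem_insert.mp (mem_coe.mp hb) with eb | hb'
      · rw [ea, eb]
      · rw [ea, Function.update_self, e _ hb'] at hab
        exact absurd (hab ▸ mem_image_of_mem χ1 hb') hx
      · rw [eb, Function.update_self, e _ ha'] at hab
        exact absurd (hab ▸ mem_image_of_mem χ1 ha') hx
      · rw [e _ ha', e _ hb'] at hab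
        exact h1 ha' hb' hab
    · rw [mem_insert, not_or] at hu
      rw [Function.update_of_ne hu.1, h2 u hu.2]

theorem petal {l : ℕ} (hl : l ≤ q) (hq : 0 < q) (Y : Finset U) (S : Finset (Finset U)) :
    (∀ X ∈ S, Y ⊆ X ∧ X.card ≤ l) → (∀ X ∈ S, ∀ X' ∈ S, X ≠ X' → X ∩ X' ⊆ Y) →
    (univ.filter fun χ : U → Fin q => Set.InjOn χ Y ∧ ∀ X ∈ S, ¬ Set.InjOn χ X).card *
      (q ^ l) ^ S.card ≤ (q ^ l - 1) ^ S.card * q ^ Fintype.card U := by
  induction S using Finset.induction_on with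
  | empty =>
    intro _ _
    simpa using (card_filter_le _ _).trans (le_of_eq (by simp))
  | insert X S hX ih =>
    intro h1 h2
    have ih' := ih (fun X' h => h1 X' (mem_insert_of_mem h))
      fun X' h X'' h' => h2 X' (mem_insert_of_mem h) X'' (mem_insert_of_mem h')
    obtain ⟨hY, hc⟩ := h1 X (mem_insert_self _ _)
    set A := univ.filter fun χ : U → Fin q => Set.InjOn χ Y ∧ ∀ X ∈ S, ¬ Set.InjOn χ X with hA
    have hU : Y ∪ X \ Y = X := union_sdiff_of_subset hY
    have hex : ∀ χ : U → Fin q, ∃ χ' : U → Fin q, Set.InjOn χ Y →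
        Set.InjOn χ' X ∧ ∀ u, u ∉ X \ Y → χ' u = χ u := by
      intro χ
      by_cases h : Set.InjOn χ Y
      · obtain ⟨χ', e1, e2⟩ := exists_ext h (X \ Y) (by rw [hU]; omega) disjoint_sdiff
        rw [hU] at e1
        exact ⟨χ', fun _ => ⟨e1, e2⟩⟩
      · exact ⟨χ, fun h' => absurd h' h⟩
    choose ψ hψ using hex
    have h3 : A.card ≤ q ^ l * (A.filter fun χ => Set.InjOn χ X).card := by
      refine card_le_mul_card_image_of_maps_to (f := ψ) (fun χ hχ => ?_) _ fun b _ => ?_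
      · obtain ⟨e1, e2⟩ := (mem_filter.mp hχ).2
        obtain ⟨e3, e4⟩ := hψ χ e1
        refine mem_filter.mpr ⟨mem_filter.mpr ⟨mem_univ _, e3.mono (coe_subset.mpr hY),
          fun X' hX' e5 => e2 X' hX' ?_⟩, e3⟩
        refine e5.congr fun u hu => e4 u fun hu' => ?_
        exact (mem_sdiff.mp hu').2 (h2 X (mem_insert_self _ _) X' (mem_insert_of_mem hX')
          (fun e => hX (e ▸ hX')) (mem_inter.mpr ⟨(mem_sdiff.mp hu').1, hu⟩))
      · refine (fiber_card (X \ Y) b _ fun χ hχ u hu => ?_).trans ?_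
        · obtain ⟨e1, e2⟩ := mem_filter.mp hχ
          rw [← e2, (hψ χ (mem_filter.mp e1).2.1).2 u hu]
        · rw [Fintype.card_fin]
          exact Nat.pow_le_pow_right hq ((card_le_card sdiff_subset).trans hc)
    have h4 := card_filter_add_card_filter_not (s := A) fun χ => Set.InjOn χ X
    have h5 : (univ.filter fun χ : U → Fin q => Set.InjOn χ Y ∧
        ∀ X' ∈ insert X S, ¬ Set.InjOn χ X') = A.filter fun χ => ¬ Set.InjOn χ X := by
      ext χ
      simp only [hA, mem_filter, mem_univ, true_and, forall_mem_insert]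
      tauto
    rw [h5, card_insert_of_notMem hX]
    have hQ : 1 ≤ q ^ l := Nat.one_le_pow _ _ hq
    obtain ⟨Q, hQ'⟩ := Nat.exists_eq_add_of_le' hQ
    rw [hQ'] at ih' h3 ⊢
    rw [Nat.add_sub_cancel] at ih' ⊢
    generalize (A.filter fun χ => Set.InjOn χ X).card = x at h3 h4
    generalize (A.filter fun χ => ¬ Set.InjOn χ X).card = y at h4 ⊢
    rw [← h4] at ih' h3
    have h6 : y * (Q + 1) ≤ Q * (x + y) := by nlinarith
    calc y * (Q + 1) ^ (S.card + 1) = y * (Q + 1) * (Q + 1) ^ S.card := by ring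
      _ ≤ Q * (x + y) * (Q + 1) ^ S.card := Nat.mul_le_mul_right _ h6
      _ = Q * ((x + y) * (Q + 1) ^ S.card) := by ring
      _ ≤ Q * (Q ^ S.card * q ^ Fintype.card U) := Nat.mul_le_mul_left _ ih'
      _ = _ := by ring

theorem sunflower {l r : ℕ} (hl : 0 < l) (hr : 0 < r) (Mn : Finset (Finset U))
    (hc : ∀ X ∈ Mn, X.card ≤ l) (ha : ∀ X ∈ Mn, ∀ X' ∈ Mn, X ⊆ X' → X' ⊆ X)
    (h : (l * r) ^ l < Mn.card) : ∃ (Y : Finset U) (S : Finset (Finset U)), S ⊆ Mn ∧ S.card = r ∧
      (∀ X ∈ S, Y ⊆ X ∧ ¬ X ⊆ Y) ∧ ∀ X ∈ S, ∀ X' ∈ S, X ≠ X' → X ∩ X' ⊆ Y := by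
  have hR : 0 < l * r := Nat.mul_pos hl hr
  obtain ⟨Y, hY, hmax⟩ := exists_max_image (univ.filter fun Y : Finset U =>
    (l * r) ^ (l - Y.card) < (Mn.filter fun X => Y ⊆ X).card) card
    ⟨∅, mem_filter.mpr ⟨mem_univ _, by simpa using h⟩⟩
  have hY' := (mem_filter.mp hY).2
  have hp : ∀ X ∈ Mn.filter fun X => Y ⊆ X, ¬ X ⊆ Y := by
    intro X hX e
    obtain ⟨e1, e2⟩ := mem_filter.mp hX
    have : (Mn.filter fun X => Y ⊆ X).card ≤ 1 := card_le_one_iff_subset_singleton.mpr
      ⟨X, fun X' hX' => mem_singleton.mpr (by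
        obtain ⟨e3, e4⟩ := mem_filter.mp hX'
        exact Subset.antisymm (ha X e1 X' e3 (e.trans e4)) (e.trans e4))⟩
    have := Nat.one_le_pow (l - Y.card) _ hR
    omega
  obtain ⟨S, hS, hm⟩ := exists_max_image (univ.filter fun S : Finset (Finset U) =>
    S ⊆ Mn.filter (fun X => Y ⊆ X) ∧ ∀ X ∈ S, ∀ X' ∈ S, X ≠ X' → X ∩ X' ⊆ Y) card
    ⟨∅, mem_filter.mpr ⟨mem_univ _, by simp⟩⟩
  obtain ⟨hS1, hS2⟩ := (mem_filter.mp hS).2
  by_cases hr' : r ≤ S.card
  · obtain ⟨S', e1, e2⟩ := exists_subset_card_eq hr'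
    exact ⟨Y, S', (e1.trans hS1).trans (filter_subset _ _), e2,
      fun X hX => ⟨(mem_filter.mp (hS1 (e1 hX))).2, hp X (hS1 (e1 hX))⟩,
      fun X hX X' hX' => hS2 X (e1 hX) X' (e1 hX')⟩
  · exfalso
    obtain ⟨X0, hX0⟩ := card_pos.mp (lt_of_le_of_lt (Nat.zero_le _) hY')
    have hlt : Y.card < l := lt_of_lt_of_le (card_lt_card
      ⟨(mem_filter.mp hX0).2, hp X0 hX0⟩) (hc X0 (mem_filter.mp hX0).1)
    have hcov : Mn.filter (fun X => Y ⊆ X) ⊆ (S.biUnion fun X => X \ Y).biUnion fun v =>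
        Mn.filter fun X => insert v Y ⊆ X := by
      intro X' hX'
      have : ∃ X ∈ S, ∃ v ∈ X ∩ X', v ∉ Y := by
        by_cases e : X' ∈ S
        · obtain ⟨v, e1, e2⟩ := not_subset.mp (hp X' hX')
          exact ⟨X', e, v, by simpa using e1, e2⟩
        · by_contra hcon
          have hcon' : ∀ X ∈ S, X ∩ X' ⊆ Y := fun X hX v hv => by
            by_contra e'
            exact hcon ⟨X, hX, v, hv, e'⟩
          have := hm (insert X' S) (mem_filter.mpr ⟨mem_univ _, insert_subset hX' hS1, ?_⟩)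
          · rw [card_insert_of_notMem e] at this; omega
          · intro A hA B hB hAB
            rcases mem_insert.mp hA with eA | hA' <;> rcases mem_insert.mp hB with eB | hB'
            · exact absurd (eA.trans eB.symm) hAB
            · rw [eA, inter_comm]; exact hcon' _ hB'
            · rw [eB]; exact hcon' _ hA'
            · exact hS2 _ hA' _ hB' hAB
      obtain ⟨X, hX, v, hv, hv'⟩ := this
      exact mem_biUnion.mpr ⟨v, mem_biUnion.mpr ⟨X, hX, mem_sdiff.mpr ⟨(mem_inter.mp hv).1, hv'⟩⟩,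
        mem_filter.mpr ⟨(mem_filter.mp hX').1, insert_subset (mem_inter.mp hv).2
          (mem_filter.mp hX').2⟩⟩
    have hT : (S.biUnion fun X => X \ Y).card ≤ S.card * l :=
      card_biUnion_le_card_mul _ _ _ fun X hX =>
        (card_le_card sdiff_subset).trans (hc X (mem_filter.mp (hS1 hX)).1)
    have h1 := (card_le_card hcov).trans (card_biUnion_le_card_mul _ _ ((l * r) ^ (l - Y.card - 1))
      fun v hv => by
        obtain ⟨X, -, hv'⟩ := mem_biUnion.mp hv
        have e := card_insert_of_notMem (mem_sdiff.mp hv').2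
        by_contra hcon
        have := hmax (insert v Y) (mem_filter.mpr ⟨mem_univ _, by
          rw [e, ← Nat.sub_sub]; exact not_le.mp hcon⟩)
        omega)
    have h2 : (l * r) ^ (l - Y.card) = l * r * (l * r) ^ (l - Y.card - 1) := by
      rw [← pow_succ']; congr 1; omega
    have h3 : (S.biUnion fun X => X \ Y).card ≤ l * r := hT.trans (by
      rw [mul_comm]; exact Nat.mul_le_mul_left _ (by omega))
    have := Nat.mul_le_mul_right ((l * r) ^ (l - Y.card - 1)) h3
    omega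

end Pool.Agent.Lib.MP_ddf912_lc.Neg
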