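import Pool.Agent.Lib.MP_ddf912_lc.Neg.Chain

/-! With `⌈log₂ (N² + 1)⌉` negation gates the model simulates every oracle circuit
(dual rail, and the inverter of Markov and Fischer). -/

set_option autoImplicit false

namespace Pool.Agent.Lib.MP_ddf912_lc.Neg

open Finset Classical
open AC (Sat vars)

theorem build {N m M k d g : ℕ} {Γ : Type} [Fintype Γ] (kind : Γ → Gate)
    (rel : Γ → (Fin N × Fin N) ⊕ Γ → Prop) (used : Γ → Fin m → (Fin N × Fin N) ⊕ Γ)
    (lit : Γ → Fin m → Fin M × Bool → (Fin N × Fin N) ⊕ Γ) (out : Γ) (lv : Γ → ℕ)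
    (h1 : ∀ i j, rel i (Sum.inr j) → lv j < lv i)
    (h2 : ∀ i a j, kind i = Gate.sat ∨ kind i = Gate.unsat → used i a = Sum.inr j → lv j < lv i)
    (h3 : ∀ i a l j, kind i = Gate.sat ∨ kind i = Gate.unsat → lit i a l = Sum.inr j → lv j < lv i)
    (hD : ∀ G : SimpleGraph (Fin N), ∃ w : (Fin N × Fin N) ⊕ Γ → Prop,
      (∀ a b, w (Sum.inl (a, b)) ↔ G.Adj a b) ∧
      (∀ i, kind i = Gate.conj → (w (Sum.inr i) ↔ ∀ u, rel i u → w u)) ∧
      (∀ i, kind i = Gate.disj → (w (Sum.inr i) ↔ ∃ u, rel i u ∧ w u)) ∧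
      (∀ i, kind i = Gate.nor → (w (Sum.inr i) ↔ ∀ u, rel i u → ¬ w u)) ∧
      (∀ i, kind i = Gate.sat ∨ kind i = Gate.unsat → ∃ φ : Finset (Finset (Fin M × Bool)),
        (∀ c, c ∈ φ ↔ ∃ a, (w (used i a) ↔ kind i = Gate.unsat) ∧
          ∀ l, l ∈ c ↔ (w (lit i a l) ↔ kind i = Gate.sat)) ∧
        (w (Sum.inr i) ↔ (Sat φ ↔ kind i = Gate.sat)) ∧ (∀ c ∈ φ, c.card ≤ d) ∧
        ⌈((vars φ).card : ℝ) / Real.logb 2 (m * (2 * M + 1) : ℕ)⌉₊ ≤ g) ∧
      (w (Sum.inr out) ↔ ¬ G.CliqueFree k)) :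
    ∃ C : Circuit (Fin N × Fin N), C.n = Fintype.card Γ ∧ C.m = m ∧ C.M = M ∧
      C.negs = {i | kind i = Gate.nor}.ncard ∧ C.Decides k d g := by
  obtain ⟨e, he⟩ : ∃ e : Fin (Fintype.card Γ) ≃ Γ, ∀ i j, lv (e j) < lv (e i) → j < i :=
    ⟨(Tuple.sort (lv ∘ (Fintype.equivFin Γ).symm)).trans (Fintype.equivFin Γ).symm,
      fun i j h => not_le.mp fun h' =>
        not_le.mpr h (Tuple.monotone_sort (lv ∘ (Fintype.equivFin Γ).symm) h')⟩
  obtain ⟨E, hE, hE'⟩ : ∃ E : (Fin N × Fin N) ⊕ Fin (Fintype.card Γ) ≃ (Fin N × Fin N) ⊕ Γ,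
      (∀ x, E (Sum.inl x) = Sum.inl x) ∧ ∀ i, E (Sum.inr i) = Sum.inr (e i) :=
    ⟨(Equiv.refl _).sumCongr e, fun _ => rfl, fun _ => rfl⟩
  refine ⟨⟨Fintype.card Γ, m, M, fun i => kind (e i), fun i => univ.filter fun u => rel (e i) (E u),
    fun i a => E.symm (used (e i) a), fun i a l => E.symm (lit (e i) a l), e.symm out,
    fun i j h => he i j (h1 _ _ (hE' j ▸ (mem_filter.mp h).2)),
    fun i a j hk h => he i j (h2 _ a _ hk (by rw [← hE', ← h]; simp)),
    fun i a l j hk h => he i j (h3 _ a l _ hk (by rw [← hE', ← h]; simp))⟩, rfl, rfl, rfl,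
    Set.ncard_congr (fun i _ => e i) (fun _ h => h) (fun _ _ _ _ h => e.injective h)
      fun i h => ⟨e.symm i, by simpa using h, by simp⟩, fun G => ?_⟩
  obtain ⟨w, w1, w2, w3, w4, w5, w6⟩ := hD G
  set C : Circuit (Fin N × Fin N) := ⟨Fintype.card Γ, m, M, fun i => kind (e i),
    fun i => univ.filter fun u => rel (e i) (E u), fun i a => E.symm (used (e i) a),
    fun i a l => E.symm (lit (e i) a l), e.symm out, _, _, _⟩ with hC
  have hu : ∀ i a, E (C.used i a) = used (e i) a := fun i a => E.apply_symm_apply _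
  have hl : ∀ i a l, E (C.lit i a l) = lit (e i) a l := fun i a l => E.apply_symm_apply _
  have key : ∀ i : Fin C.n, kind (e i) = Gate.sat ∨ kind (e i) = Gate.unsat →
      (w (Sum.inr (e i)) ↔ (Sat (C.cnf (fun u => w (E u)) i) ↔ kind (e i) = Gate.sat)) ∧
      (∀ c ∈ C.cnf (fun u => w (E u)) i, c.card ≤ d) ∧
      ⌈((vars (C.cnf (fun u => w (E u)) i)).card : ℝ) / Real.logb 2 (m * (2 * M + 1) : ℕ)⌉₊ ≤ g := by
    intro i hi
    obtain ⟨φ, e1, e2⟩ := w5 _ hi
    have : C.cnf (fun u => w (E u)) i = φ := by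
      ext c
      rw [mem_cnf, e1]
      simp only [hu, hl]
      rfl
    rw [this]
    exact e2
  refine ⟨fun u => w (E u), fun a b => (iff_of_eq (congrArg w (hE _))).trans (w1 a b), fun i => ?_,
    fun i hi => (key i hi).2, (iff_of_eq (congrArg w ((hE' _).trans
      (congrArg Sum.inr (e.apply_symm_apply out))))).trans w6⟩
  have hk : C.kind i = kind (e i) := rfl
  have hi : ∀ u, u ∈ C.ins i ↔ rel (e i) (E u) := fun u => mem_filter.trans (by simp)
  refine (iff_of_eq (congrArg w (hE' _))).trans ?_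
  unfold Circuit.gateVal
  simp only [hi]
  cases h : C.kind i with
  | conj => rw [w2 _ h]; exact (E.forall_congr_right (q := fun u => rel (e i) u → w u)).symm
  | disj => rw [w3 _ h]; exact (E.exists_congr_right (q := fun u => rel (e i) u ∧ w u)).symm
  | nor => rw [w4 _ h]; exact (E.forall_congr_right (q := fun u => rel (e i) u → ¬ w u)).symm
  | sat => rw [(key i (Or.inl h)).1, ← hk, h]; simp
  | unsat => rw [(key i (Or.inr h)).1, ← hk, h]; simp

theorem bit_of_le {a u t : ℕ} (h1 : u.testBit t = true) (h2 : u ≤ a)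
    (h3 : ∀ s, t < s → a.testBit s = true → u.testBit s = true) : a.testBit t = true := by
  have e1 : a / 2 ^ t / 2 ≤ u / 2 ^ t / 2 := by
    rw [Nat.div_div_eq_div_mul, Nat.div_div_eq_div_mul, ← pow_succ]
    refine Nat.le_of_testBit fun i => ?_
    rw [Nat.testBit_div_two_pow, Nat.testBit_div_two_pow]
    exact h3 _ (by omega)
  have e2 : u / 2 ^ t ≤ a / 2 ^ t := Nat.div_le_div_right h2
  rw [Nat.testBit_eq_decide_div_mod_eq, decide_eq_true_iff] at h1 ⊢
  omega

section Inverter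

variable {I : Type} [Fintype I] (X : I → Prop) (key : I → ℕ)

/-- The number of true inputs other than `o` with key below `p`. -/
noncomputable def cnt (o : Option I) (p : ℕ) : ℕ :=
  (univ.filter fun x => X x ∧ some x ≠ o ∧ key x < p).card

theorem cnt_succ (hk : Function.Injective key) (o : Option I) (p j : ℕ) :
    j + 1 ≤ cnt X key o p ↔ ∃ x, X x ∧ some x ≠ o ∧ key x < p ∧ j ≤ cnt X key o (key x) := by
  constructor
  · intro h
    obtain ⟨x, hx, hm⟩ := exists_max_image (univ.filter fun x => X x ∧ some x ≠ o ∧ key x < p) key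
      (card_pos.mp (lt_of_lt_of_le (Nat.succ_pos _) h))
    obtain ⟨e1, e2, e3⟩ := (mem_filter.mp hx).2
    refine ⟨x, e1, e2, e3, Nat.le_of_succ_le_succ (h.trans ((card_le_card fun y hy => ?_).trans
      (card_insert_le x _)))⟩
    by_cases e : y = x
    · rw [e]; exact mem_insert_self _ _
    · obtain ⟨e4, e5, -⟩ := (mem_filter.mp hy).2
      exact mem_insert_of_mem (mem_filter.mpr ⟨mem_univ _, e4, e5,
        lt_of_le_of_ne (hm y hy) fun e' => e (hk e')⟩)
  · rintro ⟨x, e1, e2, e3, e4⟩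
    refine lt_of_le_of_lt e4 (card_lt_card ⟨fun y hy => ?_, fun h => ?_⟩)
    · obtain ⟨e5, e6, e7⟩ := (mem_filter.mp hy).2
      exact mem_filter.mpr ⟨mem_univ _, e5, e6, e7.trans e3⟩
    · exact lt_irrefl _ (mem_filter.mp (h (mem_filter.mpr ⟨mem_univ x, e1, e2, e3⟩))).2.2.2

theorem cnt_not {p : ℕ} {x : I} (hx : key x < p) :
    cnt X key none p ≤ cnt X key (some x) p ↔ ¬ X x := by
  constructor
  · refine fun h e => not_lt.mpr h (card_lt_card ⟨fun y hy => ?_, fun h' => ?_⟩)
    · obtain ⟨e5, -, e7⟩ := (mem_filter.mp hy).2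
      exact mem_filter.mpr ⟨mem_univ _, e5, by simp, e7⟩
    · exact (mem_filter.mp (h' (mem_filter.mpr ⟨mem_univ x, e, by simp, hx⟩))).2.2.1 rfl
  · refine fun e => card_le_card fun y hy => ?_
    obtain ⟨e5, -, e7⟩ := (mem_filter.mp hy).2
    exact mem_filter.mpr ⟨mem_univ _, e5, fun e' => e (Option.some.inj e' ▸ e5), e7⟩

end Inverter

/-- Gates: thresholds, the inverter, and two rails for each gate of the given circuit. -/
abbrev Gam (N r n : ℕ) := (Bool × Option (Fin N × Fin N) × Fin (N * N + 1) × Fin (2 ^ r)) ⊕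
  ((Fin r ⊕ Fin N × Fin N) × Option (Fin (2 ^ r))) ⊕ Fin n × Bool

variable {N r : ℕ} (C : AC.Circuit (Fin N × Fin N))

def ky (x : Fin N × Fin N) : ℕ := finProdFinEquiv x

def rail : (Fin N × Fin N) ⊕ Fin C.n → Bool → (Fin N × Fin N) ⊕ Gam N r C.n
  | .inl x, true => .inl x
  | .inl x, false => .inr (.inr (.inl (.inr x, none)))
  | .inr i, b => .inr (.inr (.inr (i, b)))

def kd : Gam N r C.n → Gate
  | .inl (true, _) => .conj
  | .inl (false, _, _, j) => if j.val = 0 then .conj else .disj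
  | .inr (.inl (_, some _)) => .conj
  | .inr (.inl (.inl _, none)) => .nor
  | .inr (.inl (.inr _, none)) => .disj
  | .inr (.inr (i, b)) =>
    match C.kind i, b with
    | .conj, true => .conj
    | .conj, false => .disj
    | .disj, true => .disj
    | .disj, false => .conj
    | .nor, true => .conj
    | .nor, false => .disj
    | .query, true => .sat
    | .query, false => .unsat

def rl : Gam N r C.n → (Fin N × Fin N) ⊕ Gam N r C.n → Prop
  | .inl (true, o, p, j), u => u = .inr (.inl (false, o, p, j)) ∨ ∃ x, ky x = p ∧ u = .inl x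
  | .inl (false, o, p, j), u => ∃ (x : Fin N × Fin N) (p' : Fin (N * N + 1)) (j' : Fin (2 ^ r)),
      some x ≠ o ∧ ky x < p.val ∧ ky x = p'.val ∧ j'.val + 1 = j.val ∧ u = .inr (.inl (true, o, p', j'))
  | .inr (.inl (o, some v)), u => u = .inr (.inl (false, o.getRight?, Fin.last _, v)) ∨
      ∃ s : Fin r, (∀ t, o = .inl t → t < s) ∧ ¬ v.val.testBit s = true ∧
        u = .inr (.inr (.inl (.inl s, none)))
  | .inr (.inl (o, none)), u => ∃ v : Fin (2 ^ r), (∀ t, o = .inl t → v.val.testBit t = true) ∧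
      u = .inr (.inr (.inl (o, some v)))
  | .inr (.inr (i, b)), u => ∃ v ∈ C.ins i,
      u = rail C v (if C.kind i = AC.Gate.nor then !b else b)

def lvl : Gam N r C.n → ℕ
  | .inl (b, _, _, j) => 2 * j + b.toNat
  | .inr (.inl (.inl t, v)) => 2 * 2 ^ r + 2 * (r - t) + v.isNone.toNat
  | .inr (.inl (.inr _, v)) => 2 * 2 ^ r + 2 * (r + 1) + v.isNone.toNat
  | .inr (.inr (i, _)) => 2 * 2 ^ r + 2 * (r + 2) + C.level i

def val (w : (Fin N × Fin N) ⊕ Fin C.n → Prop) : (Fin N × Fin N) ⊕ Gam N r C.n → Prop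
  | .inl x => w (.inl x)
  | .inr (.inl (b, o, p, j)) => j.val ≤ cnt (fun x => w (.inl x)) ky o p ∧
      (b = true → ∀ x, ky x = p → w (.inl x))
  | .inr (.inr (.inl (o, some v))) => v.val ≤ cnt (fun x => w (.inl x)) ky o.getRight? (N * N) ∧
      ∀ s : Fin r, (∀ t, o = .inl t → t < s) → ¬ v.val.testBit s = true →
        ¬ (cnt (fun x => w (.inl x)) ky none (N * N)).testBit s = true
  | .inr (.inr (.inl (.inl t, none))) =>
      ¬ (cnt (fun x => w (.inl x)) ky none (N * N)).testBit t = true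
  | .inr (.inr (.inl (.inr x, none))) => ¬ w (.inl x)
  | .inr (.inr (.inr (i, b))) => (w (.inr i) ↔ b = true)

theorem val_rail (w : (Fin N × Fin N) ⊕ Fin C.n → Prop) (u : (Fin N × Fin N) ⊕ Fin C.n)
    (b : Bool) : val C w (rail (r := r) C u b) ↔ (w u ↔ b = true) := by
  rcases u with x | i <;> cases b <;> simp [rail, val]

theorem lvl_rail {i : Fin C.n} {u : (Fin N × Fin N) ⊕ Fin C.n} {b b' : Bool} {j : Gam N r C.n}
    (h : ∀ i', u = .inr i' → C.level i' < C.level i) (e : rail C u b = .inr j) :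
    lvl C j < lvl C (.inr (.inr (i, b')) : Gam N r C.n) := by
  rcases u with x | i'
  · cases b
    · obtain rfl := Sum.inr.inj e
      simp only [lvl, Option.isNone_none, Bool.toNat_true]
      omega
    · exact absurd e (by simp [rail])
  · have := h i' rfl
    cases b <;> obtain rfl := Sum.inr.inj e <;> simp only [lvl] <;> omega

theorem kd_q {j : Gam N r C.n} (h : kd C j = Gate.sat ∨ kd C j = Gate.unsat) :
    ∃ i b, j = .inr (.inr (i, b)) ∧ C.kind i = AC.Gate.query ∧ (kd C j = Gate.sat ↔ b = true) ∧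
      (kd C j = Gate.unsat ↔ b = false) := by
  rcases j with ⟨_ | _, o, p, j⟩ | ⟨o | o, _ | v⟩ | ⟨i, b⟩
  · simp only [kd] at h; split_ifs at h <;> simp at h
  all_goals try simp [kd] at h
  refine ⟨i, b, rfl, ?_⟩
  cases e : C.kind i <;> cases b <;> simp [kd, e] at h ⊢

theorem tight {k d g : ℕ} (hC : C.Decides k d g) : ∃ C' : Circuit (Fin N × Fin N),
    C'.n ≤ 2 * C.n + 13 * (N * N + 1) ^ 3 ∧ C'.m = C.m ∧ C'.M = C.M ∧
      C'.negs ≤ Nat.clog 2 (N * N + 1) ∧ C'.Decides k d g := by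
  obtain ⟨r, hr⟩ : ∃ r, r = Nat.clog 2 (N * N + 1) := ⟨_, rfl⟩
  have hR : N * N + 1 ≤ 2 ^ r := hr ▸ Nat.le_pow_clog (by norm_num) _
  have hR' : 2 ^ r ≤ 2 * (N * N + 1) := by
    rcases Nat.eq_zero_or_pos r with e | e
    · rw [e]; omega
    · have := (Nat.lt_clog_iff_pow_lt (b := 2) (by norm_num) (x := N * N + 1)
        (y := r - 1)).mp (by omega)
      rw [show r = r - 1 + 1 by omega, pow_succ]
      omega
  have hky : ∀ x : Fin N × Fin N, ky x < N * N := fun x => (finProdFinEquiv x).2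
  have hinj : Function.Injective (ky (N := N)) := fun x y e =>
    finProdFinEquiv.injective (Fin.ext e)
  refine (build (k := k) (d := d) (g := g) (kd (r := r) C) (rl C)
    (fun j a => match j with
      | .inr (.inr (i, b)) => rail C (C.used i a) (!b)
      | j => .inr j)
    (fun j a l => match j with
      | .inr (.inr (i, b)) => rail C (C.lit i a l) b
      | j => .inr j) (.inr (.inr (C.out, true))) (lvl C) ?_ ?_ ?_ ?_).imp ?_
  rotate_right
  · rintro C' ⟨e1, e2, e3, e4, e5⟩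
    refine ⟨?_, e2, e3, ?_, e5⟩
    · simp only [e1, Fintype.card_sum, Fintype.card_prod, Fintype.card_bool, Fintype.card_option,
        Fintype.card_fin]
      have h1 : r < 2 ^ r := Nat.lt_two_pow_self
      generalize 2 ^ r = R at hR' h1 ⊢
      generalize N * N = n at hR' ⊢
      have h2 := Nat.mul_le_mul_left ((n + 1) * (n + 1)) hR'
      have h3 := Nat.mul_le_mul (show r + n ≤ 3 * (n + 1) by omega)
        (show R + 1 ≤ 3 * (n + 1) by omega)
      have h4 : (n + 1) * (n + 1) * 1 ≤ (n + 1) * (n + 1) * (n + 1) :=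
        Nat.mul_le_mul_left _ (by omega)
      nlinarith
    · rw [e4, ← hr]
      refine (Set.ncard_le_ncard (t := Set.range fun t : Fin r =>
        (.inr (.inl (.inl t, none)) : Gam N r C.n)) fun j hj => ?_).trans ?_
      · rcases j with ⟨_ | _, o, p, j⟩ | ⟨o | o, _ | v⟩ | ⟨i, b⟩
        · simp only [Set.mem_ofPred_eq, kd] at hj; split_ifs at hj
        all_goals try simp [kd] at hj
        · exact ⟨o, rfl⟩
        · cases e : C.kind i <;> cases b <;> simp [e] at hj
      · rw [← Set.image_univ]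
        exact (Set.ncard_image_le (Set.toFinite _)).trans (by simp [Set.ncard_univ])
  · rintro (⟨_ | _, o, p, j⟩ | ⟨o, _ | v⟩ | ⟨i, b⟩) j' h
    · obtain ⟨x, p', j', -, -, -, h, e⟩ := h
      obtain rfl := Sum.inr.inj e
      simp only [lvl, Bool.toNat_true, Bool.toNat_false]
      omega
    · rcases h with e | ⟨x, -, e⟩
      · obtain rfl := Sum.inr.inj e
        simp [lvl]
      · simp at e
    · obtain ⟨v, -, e⟩ := h
      obtain rfl := Sum.inr.inj e
      cases o <;> simp [lvl]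
    · rcases h with e | ⟨s, h, -, e⟩ <;> obtain rfl := Sum.inr.inj e
      · have := v.2
        cases o <;> simp only [lvl, Bool.toNat_false] <;> omega
      · have := s.2
        rcases o with t | x
        · have : t.val < s.val := h t rfl
          simp only [lvl, Option.isNone_none, Bool.toNat_true]
          omega
        · simp only [lvl, Option.isNone_none, Bool.toNat_true]
          omega
    · obtain ⟨v, hv, e⟩ := h
      exact lvl_rail C (fun i' e' => C.ins_lt i i' (e' ▸ hv)) e.symm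
  · intro j a j' hk e
    obtain ⟨i, b, rfl, h, -⟩ := kd_q C hk
    exact lvl_rail C (fun i' => C.used_lt i a i' h) e
  · intro j a l j' hk e
    obtain ⟨i, b, rfl, h, -⟩ := kd_q C hk
    exact lvl_rail C (fun i' => C.lit_lt i a l i' h) e
  · intro G
    obtain ⟨w, w1, w2, w3, w4⟩ := hC G
    have ha : cnt (fun x => w (.inl x)) ky none (N * N) < 2 ^ r :=
      lt_of_le_of_lt ((card_le_univ _).trans (by simp)) hR
    have hb : ∀ s, (cnt (fun x => w (.inl x)) ky none (N * N)).testBit s = true → s < r := by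
      intro s hs
      by_contra hc
      rw [Nat.testBit_lt_two_pow (ha.trans_le (Nat.pow_le_pow_right (by norm_num)
        (not_lt.mp hc)))] at hs
      exact absurd hs (by simp)
    have hA : ∀ o v, val C w (.inr (.inr (.inl (o, some v)) : Gam N r C.n)) ↔
        ∀ u, rl C (.inr (.inl (o, some v)) : Gam N r C.n) u → val C w u := by
      refine fun o v => ⟨fun a u hu => ?_, fun a => ⟨(a _ (Or.inl rfl)).1, fun s e e' =>
        a _ (Or.inr ⟨s, e, e', rfl⟩)⟩⟩
      rcases hu with rfl | ⟨s, e, e', rfl⟩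
      · exact ⟨a.1, by simp⟩
      · exact a.2 s e e'
    refine ⟨val C w, w1, ?_, ?_, ?_, fun j hk => ?_, by rw [← w4]; simp [val]⟩
    · rintro (⟨_ | _, o, p, j⟩ | ⟨o | o, _ | v⟩ | ⟨i, b⟩) h
      · have : j.val = 0 := by
          by_contra hc
          simp [kd, hc] at h
        simp [val, rl, this]
      · refine ⟨fun a u hu => ?_, fun a => ⟨(a _ (Or.inl rfl)).1, fun _ x e =>
          a _ (Or.inr ⟨x, e, rfl⟩)⟩⟩
        rcases hu with rfl | ⟨x, e, rfl⟩
        · exact ⟨a.1, by simp⟩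
        · exact a.2 rfl x e
      · simp [kd] at h
      · exact hA _ _
      · simp [kd] at h
      · exact hA _ _
      · have := w2 i
        refine Iff.trans ?_ ⟨fun a u ⟨v, hv, e⟩ => e ▸ (val_rail C w _ _).mpr (a v hv),
          fun a v hv => (val_rail C w _ _).mp (a _ ⟨v, hv, rfl⟩)⟩
        cases e : C.kind i <;> cases b <;> simp [kd, e] at h <;>
          simp only [AC.Circuit.gateVal, e] at this <;>
          simp [val, this, -Sum.forall, -Sum.exists]
    · rintro (⟨_ | _, o, p, j⟩ | ⟨o | o, _ | v⟩ | ⟨i, b⟩) h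
      · obtain ⟨j', hj⟩ : ∃ j', j.val = j' + 1 := ⟨j.val - 1, by
          by_contra hc
          simp [kd, show j.val = 0 by omega] at h⟩
        simp only [val, rl, Bool.false_eq_true, false_imp_iff, and_true]
        rw [hj, cnt_succ _ _ hinj]
        constructor
        · rintro ⟨x, a1, a2, a3, a4⟩
          exact ⟨_, ⟨x, ⟨ky x, (hky x).trans (Nat.lt_succ_self _)⟩, ⟨j', by omega⟩, a2, a3, rfl,
            rfl, rfl⟩, a4, fun _ y e => hinj e ▸ a1⟩
        · rintro ⟨_, ⟨x, p', j'', a2, a3, a4, a5, rfl⟩, a6, a7⟩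
          exact ⟨x, a7 rfl x a4, a2, a3, by rw [a4]; omega⟩
      all_goals try simp [kd] at h
      · simp only [val, rl]
        rw [← cnt_not (fun x => w (.inl x)) ky (hky o)]
        constructor
        · exact fun a => ⟨_, ⟨⟨_, ha⟩, by simp, rfl⟩, a, fun s _ => id⟩
        · rintro ⟨_, ⟨v, -, rfl⟩, a1, a2⟩
          refine le_trans (Nat.le_of_testBit fun s hs => ?_) a1
          by_contra hc
          exact a2 ⟨s, hb s hs⟩ (by simp) hc hs
      · have := w2 i
        refine Iff.trans (b := ∃ v ∈ C.ins i, (w v ↔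
          (if C.kind i = AC.Gate.nor then !b else b) = true)) ?_
          ⟨fun ⟨v, hv, a⟩ => ⟨_, ⟨v, hv, rfl⟩, (val_rail C w _ _).mpr a⟩,
            fun ⟨u, ⟨v, hv, e⟩, a⟩ => ⟨v, hv, (val_rail C w _ _).mp (e ▸ a)⟩⟩
        cases e : C.kind i <;> cases b <;> simp [e] at h <;>
          simp only [AC.Circuit.gateVal, e] at this <;>
          simp [val, this, -Sum.forall, -Sum.exists]
    · rintro (⟨_ | _, o, p, j⟩ | ⟨o | o, _ | v⟩ | ⟨i, b⟩) h
      · simp only [kd] at h; split_ifs at h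
      all_goals try simp [kd] at h
      · simp only [val, rl]
        constructor
        · rintro a _ ⟨v, a1, rfl⟩ ⟨a2, a3⟩
          refine a (bit_of_le (a1 o rfl) a2 fun s hs e => ?_)
          by_contra hc
          exact a3 ⟨s, hb s e⟩ (fun t e' => Sum.inl.inj e' ▸ hs) hc e
        · exact fun a e => a _ ⟨⟨_, ha⟩, fun t e' => Sum.inl.inj e' ▸ e, rfl⟩
            ⟨le_rfl, fun s _ => id⟩
      · cases e : C.kind i <;> cases b <;> simp [e] at h
    · obtain ⟨i, b, rfl, h, h1, h2⟩ := kd_q C hk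
      have := w2 i
      simp only [AC.Circuit.gateVal, h] at this
      refine ⟨C.cnf w i, fun c => ?_, by rw [h1]; simp only [val, this], w3 i h⟩
      simp only [h1, h2, val_rail, AC.Circuit.cnf, mem_image, mem_filter, mem_univ, true_and,
        Finset.ext_iff]
      refine exists_congr fun a => and_congr ?_ (forall_congr' fun l => ?_) <;> cases b <;> simp
      all_goals tauto

end Pool.Agent.Lib.MP_ddf912_lc.Neg
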